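import Pool.Agent.H59.FT.MapPoly
import Pool.Agent.H38.FT.Comb2
import Pool.Agent.H38.FT.GroupDefs

/-!
Isometries of `E3` as matrices, and elementary geometry for the reduction.
-/

namespace Pool.Agent.H59.FT

open Pool.Agent.H38.FT Matrix

/-- the linear part of an isometry is an orthogonal matrix -/
theorem exists_matrix (g : E3 ≃ᵢ E3) : ∃ A : Mat, Aᵀ * A = 1 ∧
    ∀ x : E3, WithLp.ofLp (g x) = A *ᵥ WithLp.ofLp x + WithLp.ofLp (g 0) := by
  set L := (g.toRealAffineIsometryEquiv).linearIsometryEquiv with hL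
  have hg : ∀ x : E3, g x = L x + g 0 := by
    intro x
    have h := (g.toRealAffineIsometryEquiv).map_vadd 0 x
    simp only [vadd_eq_add, add_zero] at h
    exact h
  set F : (Fin 3 → ℝ) →ₗ[ℝ] (Fin 3 → ℝ) :=
    { toFun := fun v => WithLp.ofLp (L (WithLp.toLp 2 v))
      map_add' := by
        intro v w
        rw [WithLp.toLp_add, map_add, WithLp.ofLp_add]
      map_smul' := by
        intro r v
        rw [WithLp.toLp_smul, map_smul, WithLp.ofLp_smul, RingHom.id_apply] } with hF
  have hA : ∀ v, (LinearMap.toMatrix' F) *ᵥ v = WithLp.ofLp (L (WithLp.toLp 2 v)) := by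
    intro v
    rw [LinearMap.toMatrix'_mulVec]
    rfl
  refine ⟨LinearMap.toMatrix' F, ?_, ?_⟩
  · have hdot : ∀ v w : Fin 3 → ℝ, ((LinearMap.toMatrix' F) *ᵥ v) ⬝ᵥ ((LinearMap.toMatrix' F) *ᵥ w) =
        v ⬝ᵥ w := by
      intro v w
      have h := L.inner_map_map (WithLp.toLp 2 v) (WithLp.toLp 2 w)
      rw [EuclideanSpace.inner_eq_star_dotProduct, EuclideanSpace.inner_eq_star_dotProduct] at h
      rw [hA, hA, dotProduct_comm, dotProduct_comm v w]
      simpa using h
    ext i j
    have h := hdot (Pi.single i 1) (Pi.single j 1)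
    have h2 : ((LinearMap.toMatrix' F) *ᵥ Pi.single i 1) ⬝ᵥ ((LinearMap.toMatrix' F) *ᵥ Pi.single j 1)
        = ((LinearMap.toMatrix' F)ᵀ * (LinearMap.toMatrix' F)) i j := by
      rw [Matrix.mulVec_single_one, Matrix.mulVec_single_one, Matrix.mul_apply]
      rfl
    rw [← h2, h, single_one_dotProduct, Pi.single_apply, Matrix.one_apply]
  · intro x
    rw [hA, hg x]
    rfl

/-- two independent vectors: three distinct points of a sphere with the same products with them
do not exist -/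
theorem no_three {x a y1 y2 y3 : Fin 3 → ℝ} (hn : x ⨯₃ a ≠ 0)
    (h12 : y1 ≠ y2) (h13 : y1 ≠ y3) (h23 : y2 ≠ y3)
    (hx2 : y2 ⬝ᵥ x = y1 ⬝ᵥ x) (hx3 : y3 ⬝ᵥ x = y1 ⬝ᵥ x)
    (ha2 : y2 ⬝ᵥ a = y1 ⬝ᵥ a) (ha3 : y3 ⬝ᵥ a = y1 ⬝ᵥ a)
    (hr2 : y2 ⬝ᵥ y2 = y1 ⬝ᵥ y1) (hr3 : y3 ⬝ᵥ y3 = y1 ⬝ᵥ y1) : False := by
  set n := x ⨯₃ a with hndef
  -- parallel to the cross product
  have par : ∀ u : Fin 3 → ℝ, u ⬝ᵥ x = 0 → u ⬝ᵥ a = 0 → ∃ s : ℝ, u = s • n := by
    intro u hux hua
    have hk : ∃ k, n k ≠ 0 := by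
      by_contra hcon
      push Not at hcon
      exact hn (funext hcon)
    obtain ⟨k, hk⟩ := hk
    have hc : ∀ i, u i * n k = u k * n i := by
      intro i
      simp only [dotProduct, Fin.sum_univ_three] at hux hua
      have e0 : n 0 = x 1 * a 2 - x 2 * a 1 := by rw [hndef]; simp [cross_apply]
      have e1 : n 1 = x 2 * a 0 - x 0 * a 2 := by rw [hndef]; simp [cross_apply]
      have e2 : n 2 = x 0 * a 1 - x 1 * a 0 := by rw [hndef]; simp [cross_apply]
      fin_cases k <;> fin_cases i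
      · rfl
      · show u 1 * n 0 = u 0 * n 1
        rw [e0, e1]
        linear_combination (-x 2) * hua + a 2 * hux
      · show u 2 * n 0 = u 0 * n 2
        rw [e0, e2]
        linear_combination (x 1) * hua - a 1 * hux
      · show u 0 * n 1 = u 1 * n 0
        rw [e0, e1]
        linear_combination (x 2) * hua - a 2 * hux
      · rfl
      · show u 2 * n 1 = u 1 * n 2
        rw [e1, e2]
        linear_combination (-x 0) * hua + a 0 * hux
      · show u 0 * n 2 = u 2 * n 0
        rw [e0, e2]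
        linear_combination (-x 1) * hua + a 1 * hux
      · show u 1 * n 2 = u 2 * n 1
        rw [e1, e2]
        linear_combination (x 0) * hua - a 0 * hux
      · rfl
    refine ⟨u k / n k, ?_⟩
    funext i
    rw [Pi.smul_apply, smul_eq_mul, div_mul_eq_mul_div, eq_div_iff hk]
    exact hc i
  obtain ⟨s, hs⟩ := par (y2 - y1) (by rw [sub_dotProduct, hx2, sub_self])
    (by rw [sub_dotProduct, ha2, sub_self])
  obtain ⟨t, ht⟩ := par (y3 - y1) (by rw [sub_dotProduct, hx3, sub_self])
    (by rw [sub_dotProduct, ha3, sub_self])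
  have e2 : y2 = y1 + s • n := by rw [← hs]; abel
  have e3 : y3 = y1 + t • n := by rw [← ht]; abel
  have hs0 : s ≠ 0 := by
    rintro rfl
    rw [zero_smul, add_zero] at e2
    exact h12 e2.symm
  have ht0 : t ≠ 0 := by
    rintro rfl
    rw [zero_smul, add_zero] at e3
    exact h13 e3.symm
  have q2 : s * (2 * (y1 ⬝ᵥ n) + s * (n ⬝ᵥ n)) = 0 := by
    rw [e2] at hr2
    simp only [add_dotProduct, dotProduct_add, smul_dotProduct, dotProduct_smul, smul_eq_mul] at hr2
    rw [dotProduct_comm n y1] at hr2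
    linear_combination hr2
  have q3 : t * (2 * (y1 ⬝ᵥ n) + t * (n ⬝ᵥ n)) = 0 := by
    rw [e3] at hr3
    simp only [add_dotProduct, dotProduct_add, smul_dotProduct, dotProduct_smul, smul_eq_mul] at hr3
    rw [dotProduct_comm n y1] at hr3
    linear_combination hr3
  have q2' := (mul_eq_zero.1 q2).resolve_left hs0
  have q3' := (mul_eq_zero.1 q3).resolve_left ht0
  have hnn : n ⬝ᵥ n ≠ 0 := by
    intro h
    exact hn (dotProduct_self_eq_zero.1 h)
  have hst : s = t := by
    have : (s - t) * (n ⬝ᵥ n) = 0 := by linear_combination q2' - q3'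
    rcases mul_eq_zero.1 this with h | h
    · linarith
    · exact absurd h hnn
  exact h23 (by rw [e2, e3, hst])

theorem exists_orth (a : Fin 3 → ℝ) : ∃ b : Fin 3 → ℝ, b ≠ 0 ∧ a ⬝ᵥ b = 0 := by
  by_cases h : a 0 = 0
  · refine ⟨![1, 0, 0], ?_, ?_⟩
    · intro hb
      have := congrFun hb 0
      simp at this
    · simp [dotProduct, Fin.sum_univ_three, h]
  · refine ⟨![a 1, -a 0, 0], ?_, ?_⟩
    · intro hb
      have := congrFun hb 1
      simp at this
      exact h this
    · simp [dotProduct, Fin.sum_univ_three]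
      ring

theorem smul_of_cross {x a : Fin 3 → ℝ} (ha : a ≠ 0) (h : x ⨯₃ a = 0) : ∃ r : ℝ, x = r • a := by
  have hk : ∃ k, a k ≠ 0 := by
    by_contra hcon
    push Not at hcon
    exact ha (funext hcon)
  obtain ⟨k, hk⟩ := hk
  have e0 : x 1 * a 2 - x 2 * a 1 = 0 := by have := congrFun h 0; simpa [cross_apply] using this
  have e1 : x 2 * a 0 - x 0 * a 2 = 0 := by have := congrFun h 1; simpa [cross_apply] using this
  have e2 : x 0 * a 1 - x 1 * a 0 = 0 := by have := congrFun h 2; simpa [cross_apply] using this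
  have hc : ∀ i, x i * a k = x k * a i := by
    intro i
    fin_cases k <;> fin_cases i
    · rfl
    · show x 1 * a 0 = x 0 * a 1
      linarith
    · show x 2 * a 0 = x 0 * a 2
      linarith
    · show x 0 * a 1 = x 1 * a 0
      linarith
    · rfl
    · show x 2 * a 1 = x 1 * a 2
      linarith
    · show x 0 * a 2 = x 2 * a 0
      linarith
    · show x 1 * a 2 = x 2 * a 1
      linarith
    · rfl
  refine ⟨x k / a k, ?_⟩
  funext i
  rw [Pi.smul_apply, smul_eq_mul, div_mul_eq_mul_div, eq_div_iff hk]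
  exact hc i

end Pool.Agent.H59.FT
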