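import Pool.Agent.H59.FT.RedGeo
import Pool.Agent.H38.FT.GP

/-!
Reduction of the finite fully transitive polyhedra of Euclidean 3-space to the seven groups in
coordinates.
-/

namespace Pool.Agent.H59.FT

open Pool.Agent.H38.FT Matrix

/-- coordinates with respect to the point `c` -/
def toC (c : E3) (x : E3) : Fin 3 → ℝ := WithLp.ofLp x - WithLp.ofLp c

/-- the point with the given coordinates with respect to `c` -/
noncomputable def ofC (c : E3) (y : Fin 3 → ℝ) : E3 := WithLp.toLp 2 y + c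

theorem ofC_toC (c x : E3) : ofC c (toC c x) = x := by
  unfold ofC toC
  rw [WithLp.toLp_sub]
  simp

theorem toC_ofC (c : E3) (y : Fin 3 → ℝ) : toC c (ofC c y) = y := by
  unfold ofC toC
  rw [WithLp.ofLp_add]
  simp

theorem toC_inj (c : E3) : Function.Injective (toC c) :=
  Function.LeftInverse.injective (ofC_toC c)

/-- an affine functional constant on a spanning set is constant -/
theorem eq_zero_of_const {V : Set E3} (hspan : affineSpan ℝ V = ⊤) {a : Fin 3 → ℝ} {r : ℝ}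
    (h : ∀ x ∈ V, WithLp.ofLp x ⬝ᵥ a = r) : a = 0 := by
  have hv : vectorSpan ℝ V = ⊤ := by
    rw [← direction_affineSpan, hspan, AffineSubspace.direction_top]
  let F : E3 →ₗ[ℝ] ℝ :=
    { toFun := fun x => WithLp.ofLp x ⬝ᵥ a
      map_add' := by intro x y; rw [WithLp.ofLp_add, add_dotProduct]
      map_smul' := by intro t x; rw [WithLp.ofLp_smul, smul_dotProduct, RingHom.id_apply] }
  have hle : vectorSpan ℝ V ≤ LinearMap.ker F := by
    unfold vectorSpan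
    rw [Submodule.span_le]
    rintro _ ⟨x, hx, y, hy, rfl⟩
    show F (x - y) = 0
    rw [map_sub]
    show WithLp.ofLp x ⬝ᵥ a - WithLp.ofLp y ⬝ᵥ a = 0
    rw [h x hx, h y hy, sub_self]
  rw [hv] at hle
  have h1 : F (WithLp.toLp 2 a) = 0 := hle trivial
  have h2 : a ⬝ᵥ a = 0 := h1
  exact dotProduct_self_eq_zero.1 h2

/-- a matrix which vanishes on all differences of points of a spanning set is zero -/
theorem mat_eq {V : Set E3} (hspan : affineSpan ℝ V = ⊤) {c : E3} {A B : Mat}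
    (h : ∀ x ∈ V, A *ᵥ toC c x = B *ᵥ toC c x) : A = B := by
  have hrow : ∀ i, (A - B) i = 0 := by
    intro i
    refine eq_zero_of_const hspan (r := WithLp.ofLp c ⬝ᵥ (A - B) i) ?_
    intro x hx
    have h1 := congrFun (h x hx) i
    have h2 : (A - B) i ⬝ᵥ toC c x = 0 := by
      have : ((A - B) *ᵥ toC c x) i = 0 := by
        rw [Matrix.sub_mulVec, Pi.sub_apply, h1, sub_self]
      exact this
    unfold toC at h2
    rw [dotProduct_sub, sub_eq_zero] at h2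
    rw [dotProduct_comm, h2, dotProduct_comm]
  ext i j
  have := congrFun (hrow i) j
  rw [Matrix.sub_apply, Pi.zero_apply, sub_eq_zero] at this
  exact this

/-- the centroid of the vertices is fixed -/
theorem exists_center (P : Cfg E3) (hfin : P.V.Finite) (hne : P.V.Nonempty) :
    ∃ c : E3, ∀ g : E3 ≃ᵢ E3, P.map g = P → g c = c := by
  classical
  set s := hfin.toFinset with hs
  have hcard : (s.card : ℝ) ≠ 0 := by
    have : s.Nonempty := by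
      obtain ⟨x, hx⟩ := hne
      exact ⟨x, hfin.mem_toFinset.2 hx⟩
    exact Nat.cast_ne_zero.2 (Finset.card_pos.2 this).ne'
  refine ⟨(s.card : ℝ)⁻¹ • ∑ x ∈ s, x, ?_⟩
  intro g hg
  set L := (g.toRealAffineIsometryEquiv).linearIsometryEquiv with hL
  have hgL : ∀ x : E3, g x = L x + g 0 := by
    intro x
    have h := (g.toRealAffineIsometryEquiv).map_vadd 0 x
    simp only [vadd_eq_add, add_zero] at h
    exact h
  have hV : g '' P.V = P.V := congrArg Cfg.V hg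
  have himg : s.image g = s := by
    ext x
    rw [Finset.mem_image, hfin.mem_toFinset]
    constructor
    · rintro ⟨y, hy, rfl⟩
      rw [← hV]
      exact ⟨y, hfin.mem_toFinset.1 hy, rfl⟩
    · intro hx
      rw [← hV] at hx
      obtain ⟨y, hy, rfl⟩ := hx
      exact ⟨y, hfin.mem_toFinset.2 hy, rfl⟩
  have hsum : ∑ x ∈ s, g x = ∑ x ∈ s, x := by
    conv_rhs => rw [← himg]
    rw [Finset.sum_image (fun a _ b _ h => g.injective h)]
  have hsum2 : ∑ x ∈ s, g x = L (∑ x ∈ s, x) + (s.card : ℝ) • g 0 := by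
    rw [Finset.sum_congr rfl (fun x _ => hgL x), Finset.sum_add_distrib, ← map_sum,
      Finset.sum_const, ← Nat.cast_smul_eq_nsmul ℝ]
  rw [hgL, map_smul]
  have h3 : L (∑ x ∈ s, x) = (∑ x ∈ s, x) - (s.card : ℝ) • g 0 :=
    eq_sub_of_add_eq (hsum2.symm.trans hsum)
  rw [h3, smul_sub, smul_smul, inv_mul_cancel₀ hcard, one_smul]
  abel

/-- the matrices of the symmetries -/
def symG (P0 : Cfg (Fin 3 → ℝ)) : Set Mat := {A | Aᵀ * A = 1 ∧ P0.map (fun x => A *ᵥ x) = P0}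

theorem tr_mul_self {A : Mat} (h : Aᵀ * A = 1) : A * Aᵀ = 1 := mul_eq_one_comm.1 h

theorem mulVec_tr {A : Mat} (h : Aᵀ * A = 1) (x : Fin 3 → ℝ) : Aᵀ *ᵥ (A *ᵥ x) = x := by
  rw [Matrix.mulVec_mulVec, h, Matrix.one_mulVec]

theorem mulVec_tr' {A : Mat} (h : Aᵀ * A = 1) (x : Fin 3 → ℝ) : A *ᵥ (Aᵀ *ᵥ x) = x := by
  rw [Matrix.mulVec_mulVec, tr_mul_self h, Matrix.one_mulVec]

theorem mulVec_injective {A : Mat} (h : Aᵀ * A = 1) : Function.Injective (fun x => A *ᵥ x) :=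
  Function.LeftInverse.injective (g := fun x => Aᵀ *ᵥ x) (mulVec_tr h)

theorem dot_mulVec {A : Mat} (x y : Fin 3 → ℝ) : (A *ᵥ x) ⬝ᵥ y = x ⬝ᵥ (Aᵀ *ᵥ y) := by
  rw [Matrix.mulVec_transpose, dotProduct_comm, Matrix.dotProduct_mulVec, dotProduct_comm]

theorem dot_mulVec_mulVec {A : Mat} (h : Aᵀ * A = 1) (x y : Fin 3 → ℝ) :
    (A *ᵥ x) ⬝ᵥ (A *ᵥ y) = x ⬝ᵥ y := by
  rw [dot_mulVec, mulVec_tr h]

section

variable {P : Cfg E3}

theorem isFinGroup_symG (hfin : P.V.Finite) (hspan : affineSpan ℝ P.V = ⊤) (c : E3) :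
    IsFinGroup (symG (P.map (toC c))) where
  fin := by
    have hV0 : ((P.map (toC c)).V).Finite := hfin.image _
    have : Finite (P.map (toC c)).V := hV0
    let f : symG (P.map (toC c)) → ((P.map (toC c)).V → (P.map (toC c)).V) := fun A x =>
      ⟨(A : Mat) *ᵥ (x : Fin 3 → ℝ), Cfg.map_V_mem A.2.2 x.2⟩
    have hf : Function.Injective f := by
      intro A B hAB
      apply Subtype.ext
      refine mat_eq hspan (c := c) ?_
      intro x hx
      have := congrFun hAB ⟨toC c x, x, hx, rfl⟩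
      exact congrArg Subtype.val this
    have := Finite.of_injective f hf
    exact Set.toFinite _
  one := ⟨by simp, by
    have : (fun x : Fin 3 → ℝ => (1 : Mat) *ᵥ x) = fun x => x := by
      funext x; exact Matrix.one_mulVec x
    rw [this]
    exact map_id _⟩
  mul A hA B hB := ⟨by
    rw [Matrix.transpose_mul, Matrix.mul_assoc, ← Matrix.mul_assoc Aᵀ, hA.1, Matrix.one_mul, hB.1],
    by
      have : (fun x : Fin 3 → ℝ => (A * B) *ᵥ x) = fun x => A *ᵥ (B *ᵥ x) := by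
        funext x; rw [Matrix.mulVec_mulVec]
      rw [this, ← map_map _ (fun x => B *ᵥ x) (fun x => A *ᵥ x), hB.2, hA.2]⟩
  orth A hA := hA.1
  tr A hA := ⟨by rw [Matrix.transpose_transpose]; exact tr_mul_self hA.1, by
    have h1 : (P.map (toC c)).map (fun x => Aᵀ *ᵥ x) =
        ((P.map (toC c)).map (fun x => A *ᵥ x)).map (fun x => Aᵀ *ᵥ x) := by rw [hA.2]
    rw [h1, map_map]
    have : (fun x : Fin 3 → ℝ => Aᵀ *ᵥ (A *ᵥ x)) = fun x => x := by
      funext x; exact mulVec_tr hA.1 x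
    rw [this]
    exact map_id _⟩

/-- a symmetry fixing `c` gives a matrix -/
theorem exists_symG {c : E3} {g : E3 ≃ᵢ E3} (hg : P.map g = P) (hc : g c = c) :
    ∃ A ∈ symG (P.map (toC c)), ∀ x, A *ᵥ toC c x = toC c (g x) := by
  obtain ⟨A, hA, hgA⟩ := exists_matrix g
  have hx : ∀ x, A *ᵥ toC c x = toC c (g x) := by
    intro x
    unfold toC
    rw [Matrix.mulVec_sub]
    have h1 := hgA x
    have h2 := hgA c
    rw [hc] at h2
    rw [h1]
    conv_rhs => rw [h2]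
    abel
  refine ⟨A, ⟨hA, ?_⟩, hx⟩
  rw [map_map]
  have : (fun x => A *ᵥ toC c x) = fun x => toC c (g x) := funext hx
  rw [this, ← map_map P g (toC c), hg]

theorem trans_V (hT : FullyTransitive P) {c : E3} (hc : ∀ g : E3 ≃ᵢ E3, P.map g = P → g c = c) :
    ∀ x ∈ (P.map (toC c)).V, ∀ y ∈ (P.map (toC c)).V, ∃ A ∈ symG (P.map (toC c)), A *ᵥ x = y := by
  rintro _ ⟨x, hx, rfl⟩ _ ⟨y, hy, rfl⟩
  obtain ⟨g, hg, hgx⟩ := hT.1 x hx y hy
  obtain ⟨A, hA, hAx⟩ := exists_symG hg (hc g hg)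
  exact ⟨A, hA, by rw [hAx, hgx]⟩

theorem sym2_eq {A : Mat} {c : E3} {g : E3 → E3} (hA : ∀ x, A *ᵥ toC c x = toC c (g x))
    (e : Sym2 E3) : Sym2.map (fun x => A *ᵥ x) (Sym2.map (toC c) e) =
      Sym2.map (toC c) (Sym2.map g e) := by
  rw [Sym2.map_map, Sym2.map_map]
  have : ((fun x : Fin 3 → ℝ => A *ᵥ x) ∘ toC c) = (toC c) ∘ g := funext hA
  rw [this]

theorem trans_E (hT : FullyTransitive P) {c : E3} (hc : ∀ g : E3 ≃ᵢ E3, P.map g = P → g c = c) :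
    ∀ x ∈ (P.map (toC c)).E, ∀ y ∈ (P.map (toC c)).E, ∃ A ∈ symG (P.map (toC c)),
      Sym2.map (fun x => A *ᵥ x) x = y := by
  rintro _ ⟨x, hx, rfl⟩ _ ⟨y, hy, rfl⟩
  obtain ⟨g, hg, hgx⟩ := hT.2.1 x hx y hy
  obtain ⟨A, hA, hAx⟩ := exists_symG hg (hc g hg)
  exact ⟨A, hA, by rw [sym2_eq hAx, hgx]⟩

theorem trans_F (hT : FullyTransitive P) {c : E3} (hc : ∀ g : E3 ≃ᵢ E3, P.map g = P → g c = c) :
    ∀ x ∈ (P.map (toC c)).F, ∀ y ∈ (P.map (toC c)).F, ∃ A ∈ symG (P.map (toC c)),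
      Sym2.map (fun x => A *ᵥ x) '' x = y := by
  rintro _ ⟨x, hx, rfl⟩ _ ⟨y, hy, rfl⟩
  obtain ⟨g, hg, hgx⟩ := hT.2.2 x hx y hy
  obtain ⟨A, hA, hAx⟩ := exists_symG hg (hc g hg)
  refine ⟨A, hA, ?_⟩
  show Sym2.map (fun x => A *ᵥ x) '' (Sym2.map (toC c) '' x) = Sym2.map (toC c) '' y
  rw [← hgx, Set.image_image, Set.image_image]
  exact Set.image_congr fun e _ => sym2_eq hAx e

/-- there is no invariant line -/
theorem no_line (hP : P.IsPolyhedron) (hspan : affineSpan ℝ P.V = ⊤)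
    (hT : FullyTransitive P) {c : E3} (hc : ∀ g : E3 ≃ᵢ E3, P.map g = P → g c = c)
    (a : Fin 3 → ℝ) (ha : a ≠ 0) :
    ∃ A ∈ symG (P.map (toC c)), A *ᵥ a ≠ a ∧ A *ᵥ a ≠ -a := by
  by_contra hcon
  push Not at hcon
  have hinv : ∀ A ∈ symG (P.map (toC c)), A *ᵥ a = a ∨ A *ᵥ a = -a := by
    intro A hA
    by_cases h : A *ᵥ a = a
    · exact Or.inl h
    · exact Or.inr (hcon A hA h)
  have hinv' : ∀ A ∈ symG (P.map (toC c)), ∃ e : ℝ, e * e = 1 ∧ Aᵀ *ᵥ a = e • a := by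
    intro A hA
    rcases hinv A hA with h | h
    · refine ⟨1, by norm_num, ?_⟩
      conv_lhs => rw [← h]
      rw [mulVec_tr hA.1, one_smul]
    · refine ⟨-1, by norm_num, ?_⟩
      have h2 : a = A *ᵥ (-a) := by rw [Matrix.mulVec_neg, h, neg_neg]
      conv_lhs => rw [h2]
      rw [mulVec_tr hA.1, neg_one_smul]
  set P0 := P.map (toC c) with hP0
  have hP0p : P0.IsPolyhedron := isPolyhedron_map hP (toC_inj c)
  have htV := trans_V hT hc
  have htE := trans_E hT hc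
  -- no nonzero vector is orthogonal to all vertices
  have horth : ∀ b : Fin 3 → ℝ, (∀ x ∈ P0.V, x ⬝ᵥ b = 0) → b = 0 := by
    intro b hb
    refine eq_zero_of_const hspan (r := WithLp.ofLp c ⬝ᵥ b) ?_
    intro x hx
    have h1 := hb (toC c x) ⟨x, hx, rfl⟩
    unfold toC at h1
    rwa [sub_dotProduct, sub_eq_zero] at h1
  have hVT : P0.VTrans := by
    intro x hx y hy
    obtain ⟨A, hA, hxy⟩ := htV x hx y hy
    exact ⟨fun x => A *ᵥ x, mulVec_injective hA.1, hA.2, hxy⟩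
  obtain ⟨x, hx⟩ := hP0p.nonempty
  -- norms
  have hnorm : ∀ y ∈ P0.V, y ⬝ᵥ y = x ⬝ᵥ x := by
    intro y hy
    obtain ⟨A, hA, rfl⟩ := htV x hx y hy
    exact dot_mulVec_mulVec hA.1 x x
  have hxa : x ⬝ᵥ a ≠ 0 := by
    intro h0
    apply ha
    apply horth a
    intro y hy
    obtain ⟨A, hA, rfl⟩ := htV x hx y hy
    obtain ⟨e, -, he⟩ := hinv' A hA
    rw [dot_mulVec, he, dotProduct_smul, h0, smul_zero]
  have hcross : x ⨯₃ a ≠ 0 := by
    intro h0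
    obtain ⟨r, hr⟩ := smul_of_cross ha h0
    obtain ⟨b, hb, hab⟩ := exists_orth a
    apply hb
    apply horth b
    intro y hy
    obtain ⟨A, hA, rfl⟩ := htV x hx y hy
    rw [hr, Matrix.mulVec_smul, smul_dotProduct]
    rcases hinv A hA with h | h
    · rw [h, hab, smul_zero]
    · rw [h, neg_dotProduct, hab, neg_zero, smul_zero]
  obtain ⟨y1, y2, y3, h12, h13, h23, e1, e2, e3⟩ := hP0p.deg3 hVT x hx
  -- invariants of the edges
  have hedge : ∀ y z, s(x, y) ∈ P0.E → s(x, z) ∈ P0.E →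
      z ⬝ᵥ x = y ⬝ᵥ x ∧ z ⬝ᵥ a = y ⬝ᵥ a := by
    intro y z hy hz
    obtain ⟨A, hA, hmap⟩ := htE _ hy _ hz
    obtain ⟨e, he1, he⟩ := hinv' A hA
    have hAa : ∀ w : Fin 3 → ℝ, (A *ᵥ w) ⬝ᵥ a = e * (w ⬝ᵥ a) := by
      intro w
      rw [dot_mulVec, he, dotProduct_smul, smul_eq_mul]
    rw [Sym2.map_mk, Sym2.eq_iff] at hmap
    have hprod : (z ⬝ᵥ x = y ⬝ᵥ x) ∧ (x ⬝ᵥ a) * (z ⬝ᵥ a) = (x ⬝ᵥ a) * (y ⬝ᵥ a) := by
      have k1 := hAa x
      have k2 := hAa y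
      rcases hmap with ⟨h1, h2⟩ | ⟨h1, h2⟩
      · have h3 := dot_mulVec_mulVec hA.1 y x
        rw [h1, h2] at h3
        rw [h1] at k1
        rw [h2] at k2
        exact ⟨h3, by linear_combination (x ⬝ᵥ a) * k2 - (y ⬝ᵥ a) * k1⟩
      · have h3 := dot_mulVec_mulVec hA.1 x y
        rw [h1, h2] at h3
        rw [h1] at k1
        rw [h2] at k2
        refine ⟨h3.trans (dotProduct_comm x y), ?_⟩
        linear_combination (x ⬝ᵥ a) * k1 + (x ⬝ᵥ a) * e * k2 + (x ⬝ᵥ a) * (y ⬝ᵥ a) * he1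
    exact ⟨hprod.1, mul_left_cancel₀ hxa hprod.2⟩
  have k2 := hedge y1 y2 e1 e2
  have k3 := hedge y1 y3 e1 e3
  have n1 := hnorm y1 (hP0p.right_mem e1)
  have n2 := hnorm y2 (hP0p.right_mem e2)
  have n3 := hnorm y3 (hP0p.right_mem e3)
  exact no_three hcross h12 h13 h23 k2.1 k3.1 k2.2 k3.2 (n2.trans n1.symm) (n3.trans n1.symm)

end

/-- the isometry of `E3` given by an orthogonal matrix and a translation -/
theorem exists_isometry {U : Mat} (hU : Uᵀ * U = 1) (c : E3) :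
    ∃ g : E3 ≃ᵢ E3, ∀ y : Fin 3 → ℝ, g (WithLp.toLp 2 y) = ofC c (U *ᵥ y) := by
  let F : E3 → E3 := fun x => ofC c (U *ᵥ WithLp.ofLp x)
  let F' : E3 → E3 := fun x => WithLp.toLp 2 (Uᵀ *ᵥ toC c x)
  have hl : Function.LeftInverse F' F := by
    intro x
    show WithLp.toLp 2 (Uᵀ *ᵥ toC c (ofC c (U *ᵥ WithLp.ofLp x))) = x
    rw [toC_ofC, mulVec_tr hU]
  have hr : Function.RightInverse F' F := by
    intro x
    show ofC c (U *ᵥ (Uᵀ *ᵥ toC c x)) = x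
    rw [mulVec_tr' hU, ofC_toC]
  have hiso : Isometry F := by
    refine Isometry.of_dist_eq fun x y => ?_
    have h1 : dist (F x) (F y) = ‖F x - F y‖ := dist_eq_norm _ _
    have h2 : dist x y = ‖x - y‖ := dist_eq_norm _ _
    rw [h1, h2]
    have h3 : F x - F y = WithLp.toLp 2 (U *ᵥ WithLp.ofLp (x - y)) := by
      show (WithLp.toLp 2 (U *ᵥ WithLp.ofLp x) + c) - (WithLp.toLp 2 (U *ᵥ WithLp.ofLp y) + c) = _
      rw [WithLp.ofLp_sub, Matrix.mulVec_sub, WithLp.toLp_sub]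
      abel
    rw [h3]
    have h4 : ∀ v : Fin 3 → ℝ, ‖(WithLp.toLp 2 v : E3)‖ ^ 2 = v ⬝ᵥ v := by
      intro v
      rw [← real_inner_self_eq_norm_sq, EuclideanSpace.inner_eq_star_dotProduct]
      simp
    have h5 : ‖(WithLp.toLp 2 (U *ᵥ WithLp.ofLp (x - y)) : E3)‖ ^ 2 = ‖x - y‖ ^ 2 := by
      rw [h4, dot_mulVec_mulVec hU, ← h4]
    exact (sq_eq_sq₀ (norm_nonneg _) (norm_nonneg _)).1 h5
  refine ⟨⟨⟨F, F', hl, hr⟩, hiso⟩, ?_⟩
  intro y
  rfl

theorem reduction (P : Cfg E3) (hP : P.IsPolyhedron) (hfin : P.V.Finite)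
    (hspan : affineSpan ℝ P.V = ⊤) (hT : FullyTransitive P)
    (hM1 : ∀ G : Set Mat, IsFinGroup G →
      (∀ a : Fin 3 → ℝ, a ≠ 0 → ∃ A ∈ G, A *ᵥ a ≠ a ∧ A *ᵥ a ≠ -a) →
      ∃ U : Mat, Uᵀ * U = 1 ∧ ∃ t : Tag, ∀ M : Mat, M ∈ G ↔ Uᵀ * M * U ∈ t.group) :
    ∃ (t : Tag) (g : E3 ≃ᵢ E3) (P' : Cfg (Fin 3 → ℝ)), GP P' t ∧
      P = P'.map (fun x => g (WithLp.toLp 2 x)) := by
  obtain ⟨c, hc⟩ := exists_center P hfin hP.nonempty
  obtain ⟨U, hU, t, ht⟩ := hM1 _ (isFinGroup_symG hfin hspan c) (no_line hP hspan hT hc)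
  obtain ⟨g, hg⟩ := exists_isometry hU c
  have hUU := tr_mul_self hU
  have hUt : (Uᵀ)ᵀ * Uᵀ = 1 := by rw [Matrix.transpose_transpose]; exact hUU
  have htV := trans_V hT hc
  have htE := trans_E hT hc
  have htF := trans_F hT hc
  have hP0p : (P.map (toC c)).IsPolyhedron := isPolyhedron_map hP (toC_inj c)
  -- from matrices of the group of the tag to symmetries and back
  have hback : ∀ M ∈ symG (P.map (toC c)), Uᵀ * M * U ∈ t.group := fun M hM => (ht M).1 hM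
  have hconj : ∀ M : Mat, ∀ x, (Uᵀ * M * U) *ᵥ (Uᵀ *ᵥ x) = Uᵀ *ᵥ (M *ᵥ x) := by
    intro M x
    rw [Matrix.mulVec_mulVec, Matrix.mulVec_mulVec, Matrix.mul_assoc, hUU, Matrix.mul_one]
  have hconj2 : ∀ M : Mat, ∀ e : Sym2 (Fin 3 → ℝ),
      Sym2.map (fun x => (Uᵀ * M * U) *ᵥ x) (Sym2.map (fun x => Uᵀ *ᵥ x) e) =
        Sym2.map (fun x => Uᵀ *ᵥ x) (Sym2.map (fun x => M *ᵥ x) e) := by
    intro M e
    rw [Sym2.map_map, Sym2.map_map]
    have : ((fun x : Fin 3 → ℝ => (Uᵀ * M * U) *ᵥ x) ∘ fun x => Uᵀ *ᵥ x) =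
        (fun x => Uᵀ *ᵥ x) ∘ fun x => M *ᵥ x := funext (hconj M)
    rw [this]
  refine ⟨t, g, (P.map (toC c)).map (fun x => Uᵀ *ᵥ x), ⟨isPolyhedron_map hP0p
    (mulVec_injective hUt), ?_, ?_, ?_, ?_⟩, ?_⟩
  · intro A hA
    have hM : U * A * Uᵀ ∈ symG (P.map (toC c)) := by
      rw [ht]
      have : Uᵀ * (U * A * Uᵀ) * U = A := by
        rw [Matrix.mul_assoc, Matrix.mul_assoc (U * A), hU, Matrix.mul_one, ← Matrix.mul_assoc, hU,
          Matrix.one_mul]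
      rw [this]
      exact hA
    have h1 := hM.2
    rw [map_map]
    have h2 : (fun x : Fin 3 → ℝ => A *ᵥ (Uᵀ *ᵥ x)) = fun x => Uᵀ *ᵥ ((U * A * Uᵀ) *ᵥ x) := by
      funext x
      rw [Matrix.mulVec_mulVec, Matrix.mulVec_mulVec, Matrix.mul_assoc U, ← Matrix.mul_assoc Uᵀ, hU,
        Matrix.one_mul]
    rw [h2, ← map_map _ (fun x => (U * A * Uᵀ) *ᵥ x) (fun x => Uᵀ *ᵥ x), h1]
  · rintro _ ⟨x, hx, rfl⟩ _ ⟨y, hy, rfl⟩
    obtain ⟨M, hM, hxy⟩ := htV x hx y hy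
    exact ⟨Uᵀ * M * U, hback M hM, by rw [hconj, hxy]⟩
  · rintro _ ⟨x, hx, rfl⟩ _ ⟨y, hy, rfl⟩
    obtain ⟨M, hM, hxy⟩ := htE x hx y hy
    exact ⟨Uᵀ * M * U, hback M hM, by rw [hconj2, hxy]⟩
  · rintro _ ⟨x, hx, rfl⟩ _ ⟨y, hy, rfl⟩
    obtain ⟨M, hM, hxy⟩ := htF x hx y hy
    refine ⟨Uᵀ * M * U, hback M hM, ?_⟩
    show Sym2.map (fun x => (Uᵀ * M * U) *ᵥ x) '' (Sym2.map (fun x => Uᵀ *ᵥ x) '' x) =
      Sym2.map (fun x => Uᵀ *ᵥ x) '' y
    rw [← hxy, Set.image_image, Set.image_image]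
    exact Set.image_congr fun e _ => hconj2 M e
  · rw [map_map, map_map]
    have : (fun x : E3 => g (WithLp.toLp 2 (Uᵀ *ᵥ toC c x))) = fun x => x := by
      funext x
      rw [hg, mulVec_tr' hU, ofC_toC]
    rw [this, map_id]

end Pool.Agent.H59.FT
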