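import Pool.Agent.H59.FT.Conn

/-!
# Configurations given by labelled symmetric relations

The faces are given by symmetric relations `A m`, `m ∈ S`: the edges of the face with label `m` are
the pairs `s(x, y)` with `A m x y`.
-/

namespace Pool.Agent.H59.FT

open Pool.Agent.H38.FT

variable {X K : Type*}

/-- The set of edges of the relation `R`. -/
def decA (R : X → X → Prop) : Set (Sym2 X) := {e | ∃ x y, R x y ∧ e = s(x, y)}

theorem mem_decA {R : X → X → Prop} (hs : ∀ x y, R x y → R y x) {x y : X} :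
    s(x, y) ∈ decA R ↔ R x y := by
  constructor
  · rintro ⟨a, b, h, he⟩
    rw [Sym2.eq_iff] at he
    rcases he with ⟨rfl, rfl⟩ | ⟨rfl, rfl⟩
    · exact h
    · exact hs _ _ h
  · intro h
    exact ⟨x, y, h, rfl⟩

/-- The configuration given by the labels in `S`. -/
def cfgA (V : Set X) (S : Set K) (A : K → X → X → Prop) : Cfg X where
  V := V
  E := {e | ∃ m ∈ S, e ∈ decA (A m)}
  F := {f | ∃ m ∈ S, f = decA (A m)}

/-- The conditions on the labelled relations. -/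
structure Good (V : Set X) (S : Set K) (A : K → X → X → Prop) : Prop where
  nonempty : V.Nonempty
  symm : ∀ m x y, A m x y → A m y x
  ne : ∀ m ∈ S, ∀ x y, A m x y → x ≠ y
  mem : ∀ m ∈ S, ∀ x y, A m x y → x ∈ V
  vertex : ∀ x ∈ V, ∃ m ∈ S, ∃ y, A m x y
  face : ∀ m ∈ S, ∃ x y, A m x y
  two_faces : ∀ m ∈ S, ∀ x y, A m x y → ∃ m1 ∈ S, ∃ m2 ∈ S, m1 ≠ m2 ∧ A m1 x y ∧ A m2 x y ∧
    ∀ m' ∈ S, A m' x y → m' = m1 ∨ m' = m2
  two_edges : ∀ m ∈ S, ∀ x y, A m x y → ∃ y1 y2, y1 ≠ y2 ∧ A m x y1 ∧ A m x y2 ∧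
    ∀ y', A m x y' → y' = y1 ∨ y' = y2
  face_conn : ∀ m ∈ S, ∀ x y x' y', A m x y → A m x' y' → Relation.ReflTransGen (A m) x x'
  fig_conn : ∀ x ∈ V, ∀ y y', (∃ m ∈ S, A m x y) → (∃ m ∈ S, A m x y') →
    Relation.ReflTransGen (fun z z' => ∃ m ∈ S, A m x z ∧ A m x z') y y'
  conn : ∀ x ∈ V, ∀ y ∈ V, Relation.ReflTransGen (fun z z' => ∃ m ∈ S, A m z z') x y
  inj : ∀ m ∈ S, ∀ m' ∈ S, (∀ x y, A m x y ↔ A m' x y) → m = m'

theorem Good.isPolyhedron {V : Set X} {S : Set K} {A : K → X → X → Prop} (h : Good V S A) :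
    (cfgA V S A).IsPolyhedron := by
  have hm : ∀ m x y, s(x, y) ∈ decA (A m) ↔ A m x y := fun m x y => mem_decA (h.symm m)
  have hinj : ∀ m ∈ S, ∀ m' ∈ S, decA (A m) = decA (A m') → m = m' := by
    intro m hmS m' hmS' he
    refine h.inj m hmS m' hmS' fun x y => ?_
    rw [← hm m, ← hm m', he]
  -- flags
  have hfl : ∀ B, (cfgA V S A).IsFlag B → ∃ m ∈ S, ∃ y, A m B.1 y ∧ B = (B.1, s(B.1, y), decA (A m)) := by
    rintro ⟨x, e, f⟩ ⟨h1, h2, ⟨m, hmS, hf⟩, h4, h5⟩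
    obtain ⟨y, hy⟩ := Sym2.mem_iff_exists.1 h4
    simp only at hf h5 hy
    subst hf hy
    exact ⟨m, hmS, y, (hm m x y).1 h5, rfl⟩
  have hfl' : ∀ m ∈ S, ∀ x y, A m x y → (cfgA V S A).IsFlag (x, s(x, y), decA (A m)) := by
    intro m hmS x y hxy
    exact ⟨h.mem m hmS x y hxy, ⟨m, hmS, (hm m x y).2 hxy⟩, ⟨m, hmS, rfl⟩, by simp, (hm m x y).2 hxy⟩
  refine isPolyhedron_of_conn h.nonempty ?_ ?_ ?_ ?_ ?_ ?_ ?_ ?_
  · rintro e ⟨m, hmS, x, y, hxy, rfl⟩
    exact ⟨x, h.mem m hmS x y hxy, y, h.mem m hmS y x (h.symm m x y hxy), h.ne m hmS x y hxy, rfl⟩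
  · rintro f ⟨m, hmS, rfl⟩
    obtain ⟨x, y, hxy⟩ := h.face m hmS
    exact ⟨⟨s(x, y), (hm m x y).2 hxy⟩, fun e he => ⟨m, hmS, he⟩⟩
  · intro x hx
    obtain ⟨m, hmS, y, hxy⟩ := h.vertex x hx
    exact ⟨s(x, y), ⟨m, hmS, (hm m x y).2 hxy⟩, by simp⟩
  · rintro e ⟨m, hmS, x, y, hxy, rfl⟩
    obtain ⟨m1, h1S, m2, h2S, hne, h1, h2, hall⟩ := h.two_faces m hmS x y hxy
    have : {f | f ∈ (cfgA V S A).F ∧ s(x, y) ∈ f} = {decA (A m1), decA (A m2)} := by
      ext f
      constructor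
      · rintro ⟨⟨m', hm'S, rfl⟩, hf⟩
        rcases hall m' hm'S ((hm m' x y).1 hf) with rfl | rfl
        · exact Or.inl rfl
        · exact Or.inr rfl
      · rintro (rfl | rfl)
        · exact ⟨⟨m1, h1S, rfl⟩, (hm _ _ _).2 h1⟩
        · exact ⟨⟨m2, h2S, rfl⟩, (hm _ _ _).2 h2⟩
    rw [this, Set.ncard_pair]
    exact fun he => hne (hinj m1 h1S m2 h2S he)
  · rintro f ⟨m, hmS, rfl⟩ x ⟨e, he, hxe⟩
    obtain ⟨y, rfl⟩ := Sym2.mem_iff_exists.1 hxe
    have hxy := (hm m x y).1 he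
    obtain ⟨y1, y2, hne, h1, h2, hall⟩ := h.two_edges m hmS x y hxy
    have : {e | e ∈ decA (A m) ∧ x ∈ e} = {s(x, y1), s(x, y2)} := by
      ext e'
      constructor
      · rintro ⟨hf, hx⟩
        obtain ⟨z, rfl⟩ := Sym2.mem_iff_exists.1 hx
        rcases hall z ((hm m x z).1 hf) with rfl | rfl
        · exact Or.inl rfl
        · exact Or.inr rfl
      · rintro (rfl | rfl)
        · exact ⟨(hm _ _ _).2 h1, by simp⟩
        · exact ⟨(hm _ _ _).2 h2, by simp⟩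
    rw [this, Set.ncard_pair]
    intro he
    exact hne (Sym2.congr_right.1 he)
  · -- vertex figures
    intro x hx B C hB hC hBx hCx
    obtain ⟨m, hmS, y, hxy, hBe⟩ := hfl B hB
    obtain ⟨m', hmS', y', hxy', hCe⟩ := hfl C hC
    rw [hBx] at hBe hxy
    rw [hCx] at hCe hxy'
    rw [hBe, hCe]
    have key : ∀ z, Relation.ReflTransGen (fun z z' => ∃ m ∈ S, A m x z ∧ A m x z') y z →
        ∀ m' ∈ S, A m' x z → Relation.ReflTransGen (fun C D => (cfgA V S A).IsFlag C ∧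
          (cfgA V S A).IsFlag D ∧ Adjacent C D ∧ D.1 = x) (x, s(x, y), decA (A m))
          (x, s(x, z), decA (A m')) := by
      intro z hz
      induction hz with
      | refl =>
        intro m' hm'S hm'
        by_cases hd : decA (A m) = decA (A m')
        · rw [hd]
        · exact Relation.ReflTransGen.single ⟨hfl' m hmS x y hxy, hfl' m' hm'S x y hm',
            Or.inr (Or.inr ⟨rfl, rfl, hd⟩), rfl⟩
      | @tail z w hz hzw ih =>
        intro m' hm'S hm'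
        obtain ⟨m2, hm2S, ha, hb⟩ := hzw
        have p1 := ih m2 hm2S ha
        have p2 : Relation.ReflTransGen (fun C D => (cfgA V S A).IsFlag C ∧
          (cfgA V S A).IsFlag D ∧ Adjacent C D ∧ D.1 = x) (x, s(x, y), decA (A m))
          (x, s(x, w), decA (A m2)) := by
          by_cases hd : s(x, z) = s(x, w)
          · rw [hd] at p1
            exact p1
          · exact p1.tail ⟨hfl' m2 hm2S x z ha, hfl' m2 hm2S x w hb,
              Or.inr (Or.inl ⟨rfl, hd, rfl⟩), rfl⟩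
        by_cases hd : decA (A m2) = decA (A m')
        · rw [hd] at p2
          exact p2
        · exact p2.tail ⟨hfl' m2 hm2S x w hb, hfl' m' hm'S x w hm',
            Or.inr (Or.inr ⟨rfl, rfl, hd⟩), rfl⟩
    exact key y' (h.fig_conn x hx y y' ⟨m, hmS, hxy⟩ ⟨m', hmS', hxy'⟩) m' hmS' hxy'
  · -- faces
    rintro f ⟨m, hmS, rfl⟩ B C hB hC hBf hCf
    obtain ⟨m1, hm1S, y, hxy, hBe⟩ := hfl B hB
    obtain ⟨m2, hm2S, y', hxy', hCe⟩ := hfl C hC
    have e1 : m1 = m := hinj m1 hm1S m hmS (by rw [← hBf, hBe])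
    have e2 : m2 = m := hinj m2 hm2S m hmS (by rw [← hCf, hCe])
    rw [e1] at hBe hxy
    rw [e2] at hCe hxy'
    rw [hBe, hCe]
    have key : ∀ z, Relation.ReflTransGen (A m) B.1 z → ∀ w, A m z w →
        Relation.ReflTransGen (fun C D => (cfgA V S A).IsFlag C ∧
          (cfgA V S A).IsFlag D ∧ Adjacent C D ∧ D.2.2 = decA (A m)) (B.1, s(B.1, y), decA (A m))
          (z, s(z, w), decA (A m)) := by
      intro z hz
      induction hz with
      | refl =>
        intro w hw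
        by_cases hd : s(B.1, y) = s(B.1, w)
        · rw [hd]
        · exact Relation.ReflTransGen.single ⟨hfl' m hmS _ _ hxy, hfl' m hmS _ _ hw,
            Or.inr (Or.inl ⟨rfl, hd, rfl⟩), rfl⟩
      | @tail z u hz hzu ih =>
        intro w hw
        have p1 := ih u hzu
        have hf' : (cfgA V S A).IsFlag (u, s(z, u), decA (A m)) := by
          rw [Sym2.eq_swap]
          exact hfl' m hmS u z (h.symm m z u hzu)
        have p2 := p1.tail ⟨hfl' m hmS z u hzu, hf', Or.inl ⟨h.ne m hmS z u hzu, rfl, rfl⟩, rfl⟩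
        by_cases hd : s(z, u) = s(u, w)
        · rw [hd] at p2
          exact p2
        · exact p2.tail ⟨hf', hfl' m hmS u w hw, Or.inr (Or.inl ⟨rfl, hd, rfl⟩), rfl⟩
    exact key C.1 (h.face_conn m hmS _ _ _ _ hxy hxy') y' hxy'
  · -- the graph
    intro x hx y hy
    refine rtg_mono ?_ (h.conn x hx y hy)
    rintro a b ⟨m, hmS, hab⟩
    exact ⟨m, hmS, (hm m a b).2 hab⟩

end Pool.Agent.H59.FT
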