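import Pool.Agent.H59.FT.CheckPoly
import Pool.Agent.H59.FT.Label

/-!
Soundness of the test `checkPoly`.
-/

namespace Pool.Agent.H38.FT.Code

open Pool.Agent.H59.FT

theorem beq_iff {a b : ℕ} : Nat.beq a b = true ↔ a = b := by
  constructor
  · exact Nat.eq_of_beq_eq_true
  · rintro rfl; exact Nat.beq_refl a

theorem tb_iff {m i : ℕ} : tb m i = true ↔ m.testBit i = true := by
  unfold tb
  rw [beq_iff, Nat.testBit_eq_decide_div_mod_eq, Nat.shiftRight_eq_div_pow, decide_eq_true_iff]

theorem mem_iff' {x : ℕ} {l : List ℕ} : mem x l = true ↔ x ∈ l := by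
  induction l with
  | nil => simp [mem]
  | cons a l ih =>
    rw [mem]
    cases hb : Nat.beq x a with
    | true =>
      have := beq_iff.1 hb
      simp [this]
    | false =>
      have hne : x ≠ a := by
        intro h
        rw [beq_iff.2 h] at hb
        exact Bool.noConfusion hb
      simp only [cond_false, ih, List.mem_cons, hne, false_or]

theorem mem_dd {x : ℕ} {l : List ℕ} : x ∈ dd l ↔ x ∈ l := by
  induction l with
  | nil => simp [dd]
  | cons a l ih =>
    rw [dd]
    cases hb : mem a l with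
    | true =>
      rw [cond_true, ih, List.mem_cons]
      constructor
      · exact Or.inr
      · rintro (rfl | h)
        · exact mem_iff'.1 hb
        · exact h
    | false =>
      rw [cond_false, List.mem_cons, ih, List.mem_cons]

theorem testBit_orAll {l : List ℕ} {i : ℕ} : (orAll l).testBit i = true ↔ ∃ m ∈ l, m.testBit i = true := by
  induction l with
  | nil => simp [orAll]
  | cons a l ih =>
    rw [orAll, Nat.testBit_or, Bool.or_eq_true, ih]
    simp

theorem testBit_one_shiftLeft {e i : ℕ} : (1 <<< e).testBit i = true ↔ i = e := by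
  rw [Nat.one_shiftLeft, Nat.testBit_two_pow, decide_eq_true_iff]
  exact eq_comm

theorem testBit_maskL {l : List ℕ} {i : ℕ} : (maskL l).testBit i = true ↔ i ∈ l := by
  induction l with
  | nil => simp [maskL]
  | cons a l ih =>
    rw [maskL, Nat.testBit_or, Bool.or_eq_true, ih, testBit_one_shiftLeft, List.mem_cons]

theorem mem_codes {n e : ℕ} : e ∈ codes n ↔ ∃ i j, i < j ∧ j < n ∧ e = 64 * i + j := by
  unfold codes
  simp only [List.mem_flatMap, List.mem_range, List.mem_map]
  constructor
  · rintro ⟨j, hj, i, hi, rfl⟩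
    exact ⟨i, j, hi, hj, rfl⟩
  · rintro ⟨i, j, hi, hj, rfl⟩
    exact ⟨j, hj, i, hi, rfl⟩

theorem ec_comm (a b : ℕ) : ec a b = ec b a := by
  unfold ec
  rcases lt_trichotomy a b with h | h | h
  · rw [Nat.ble_eq_true_of_le h.le]
    have : Nat.ble b a = false := by
      rw [Bool.eq_false_iff]
      intro h'
      exact absurd (Nat.le_of_ble_eq_true h') (by omega)
    rw [this]; rfl
  · rw [h]
  · rw [Nat.ble_eq_true_of_le h.le]
    have : Nat.ble a b = false := by
      rw [Bool.eq_false_iff]
      intro h'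
      exact absurd (Nat.le_of_ble_eq_true h') (by omega)
    rw [this]; rfl

theorem ec_of_lt {a b : ℕ} (h : a < b) : ec a b = 64 * a + b := by
  unfold ec
  rw [Nat.ble_eq_true_of_le h.le]; rfl

/-- the edges of a list of codes: the code is that of the pair of its two digits -/
def OKL (L : List ℕ) : Prop := ∀ e ∈ L, e / 64 < e % 64 ∧ e = 64 * (e / 64) + e % 64

theorem ec_digits {L : List ℕ} (hL : OKL L) {e : ℕ} (he : e ∈ L) : ec (e / 64) (e % 64) = e := by
  rw [ec_of_lt (hL e he).1]
  exact (hL e he).2.symm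

theorem mem_nbs {L : List ℕ} (hL : OKL L) {v k : ℕ} (hv : v < 64) (hk : k < 64) :
    k ∈ nbs v L ↔ v ≠ k ∧ ec v k ∈ L := by
  have h1 : k ∈ nbs v L ↔ ∃ e ∈ L, (e / 64 = v ∧ e % 64 = k) ∨ (e % 64 = v ∧ e / 64 = k) := by
    clear hv hk
    induction L with
    | nil => simp [nbs]
    | cons a l ih =>
      have hl : OKL l := fun e he => hL e (List.mem_cons_of_mem _ he)
      have ha := (hL a List.mem_cons_self).1
      rw [nbs]
      cases hb : Nat.beq (a / 64) v with
      | true =>
        have hb := beq_iff.1 hb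
        rw [cond_true, List.mem_cons, ih hl]
        constructor
        · rintro (h | ⟨e, he, h⟩)
          · exact ⟨a, List.mem_cons_self, Or.inl ⟨hb, h.symm⟩⟩
          · exact ⟨e, List.mem_cons_of_mem _ he, h⟩
        · rintro ⟨e, he, h⟩
          rcases List.mem_cons.1 he with rfl | he
          · rcases h with h | h
            · exact Or.inl h.2.symm
            · omega
          · exact Or.inr ⟨e, he, h⟩
      | false =>
        have hb : a / 64 ≠ v := by
          intro h
          rw [beq_iff.2 h] at hb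
          exact Bool.noConfusion hb
        rw [cond_false]
        cases hc : Nat.beq (a % 64) v with
        | true =>
          have hc := beq_iff.1 hc
          rw [cond_true, List.mem_cons, ih hl]
          constructor
          · rintro (h | ⟨e, he, h⟩)
            · exact ⟨a, List.mem_cons_self, Or.inr ⟨hc, h.symm⟩⟩
            · exact ⟨e, List.mem_cons_of_mem _ he, h⟩
          · rintro ⟨e, he, h⟩
            rcases List.mem_cons.1 he with rfl | he
            · rcases h with h | h
              · exact absurd h.1 hb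
              · exact Or.inl h.2.symm
            · exact Or.inr ⟨e, he, h⟩
        | false =>
          have hc : a % 64 ≠ v := by
            intro h
            rw [beq_iff.2 h] at hc
            exact Bool.noConfusion hc
          rw [cond_false, ih hl]
          constructor
          · rintro ⟨e, he, h⟩
            exact ⟨e, List.mem_cons_of_mem _ he, h⟩
          · rintro ⟨e, he, h⟩
            rcases List.mem_cons.1 he with rfl | he
            · rcases h with h | h
              · exact absurd h.1 hb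
              · exact absurd h.1 hc
            · exact ⟨e, he, h⟩
  rw [h1]
  constructor
  · rintro ⟨e, he, h | h⟩
    · have := (hL e he).1
      refine ⟨by omega, ?_⟩
      rw [← h.1, ← h.2, ec_digits hL he]
      exact he
    · have := (hL e he).1
      refine ⟨by omega, ?_⟩
      rw [← h.1, ← h.2, ec_comm, ec_digits hL he]
      exact he
  · rintro ⟨hvk, h⟩
    refine ⟨_, h, ?_⟩
    rcases lt_or_gt_of_ne hvk with h' | h'
    · left
      rw [ec_of_lt h']
      omega
    · right
      rw [ec_comm, ec_of_lt h']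
      omega

theorem two_iff {l : List ℕ} (h : two l = true) : ∃ a b, a ≠ b ∧ l = [a, b] := by
  match l, h with
  | [a, b], h =>
    refine ⟨a, b, ?_, rfl⟩
    intro hab
    rw [two, beq_iff.2 hab] at h
    exact Bool.noConfusion h

/-! ### growing -/

/-- all bits of `R` are reachable from `s` -/
def Reach (T : ℕ → ℕ → Prop) (s R : ℕ) : Prop :=
  ∀ i, R.testBit i = true → Relation.ReflTransGen T s i

theorem reach_add2 {T : ℕ → ℕ → Prop} {s R x y : ℕ} (hR : Reach T s R) (hxy : T x y) (hyx : T y x) :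
    Reach T s (add2 R x y) := by
  unfold add2
  cases hb : (tb R x || tb R y) with
  | false => exact hR
  | true =>
    rw [cond_true]
    have hx : Relation.ReflTransGen T s x ∧ Relation.ReflTransGen T s y := by
      rw [Bool.or_eq_true, tb_iff, tb_iff] at hb
      rcases hb with h | h
      · exact ⟨hR x h, (hR x h).tail hxy⟩
      · exact ⟨(hR y h).tail hyx, hR y h⟩
    intro i hi
    rw [Nat.testBit_or, Nat.testBit_or, Bool.or_eq_true, Bool.or_eq_true, testBit_one_shiftLeft,
      testBit_one_shiftLeft] at hi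
    rcases hi with (h | h) | h
    · exact hR i h
    · rw [h]; exact hx.1
    · rw [h]; exact hx.2

theorem reach_growE {T : ℕ → ℕ → Prop} {s : ℕ} {l : List ℕ}
    (hl : ∀ e ∈ l, T (e / 64) (e % 64) ∧ T (e % 64) (e / 64)) {R : ℕ} (hR : Reach T s R) :
    Reach T s (growE l R) := by
  induction l generalizing R with
  | nil => exact hR
  | cons a l ih =>
    rw [growE, force_eq]
    refine ih (fun e he => hl e (List.mem_cons_of_mem _ he)) ?_
    exact reach_add2 hR (hl a List.mem_cons_self).1 (hl a List.mem_cons_self).2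

theorem reach_iter {T : ℕ → ℕ → Prop} {s : ℕ} {f : ℕ → ℕ} (hf : ∀ R, Reach T s R → Reach T s (f R))
    {k : ℕ} {R : ℕ} (hR : Reach T s R) : Reach T s (iter f k R) := by
  induction k generalizing R with
  | zero => exact hR
  | succ k ih =>
    rw [iter, force_eq]
    exact ih (hf _ hR)

theorem reach_start {T : ℕ → ℕ → Prop} {s : ℕ} : Reach T s (1 <<< s) := by
  intro i hi
  rw [testBit_one_shiftLeft.1 hi]

/-! ### the relation of a mask -/

/-- the pair `x, y` is an edge of the mask `m` -/
def AA (n m x y : ℕ) : Prop := x < n ∧ y < n ∧ x ≠ y ∧ tb m (ec x y) = true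

theorem AA.symm {n m x y : ℕ} (h : AA n m x y) : AA n m y x :=
  ⟨h.2.1, h.1, h.2.2.1.symm, by rw [ec_comm]; exact h.2.2.2⟩

theorem rtg_symm {Z : Type*} {r : Z → Z → Prop} (hr : ∀ a b, r a b → r b a) {a b : Z}
    (h : Relation.ReflTransGen r a b) : Relation.ReflTransGen r b a := by
  induction h with
  | refl => exact Relation.ReflTransGen.refl
  | tail _ h2 ih => exact (Relation.ReflTransGen.single (hr _ _ h2)).trans ih

theorem good_of_checkL {n : ℕ} {F : List ℕ} {U : ℕ} {L : List ℕ} (hn : n ≤ 64) (hn1 : 1 ≤ n)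
    (hU : U = orAll F) (hLd : L = (codes n).filter (tb U)) (h : checkL n F U L = true) :
    Good {i : ℕ | i < n} {m : ℕ | m ∈ F} (AA n) := by
  unfold checkL at h
  rw [Bool.and_eq_true, Bool.and_eq_true, Bool.and_eq_true, Bool.and_eq_true, beq_iff] at h
  obtain ⟨hM, h2, hcyc, hfig, hcon⟩ := h
  have hOK : OKL L := by
    intro e he
    rw [hLd, List.mem_filter, mem_codes] at he
    obtain ⟨⟨i, j, hij, hj, rfl⟩, -⟩ := he
    omega
  have hLn : ∀ e ∈ L, e % 64 < n := by
    intro e he
    rw [hLd, List.mem_filter, mem_codes] at he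
    obtain ⟨⟨i, j, hij, hj, rfl⟩, -⟩ := he
    omega
  have hUL : ∀ i, U.testBit i = true ↔ i ∈ L := by
    intro i
    rw [← hM, testBit_maskL]
  have hFL : ∀ m ∈ F, ∀ i, m.testBit i = true → i ∈ L := by
    intro m hm i hi
    rw [← hUL, hU, testBit_orAll]
    exact ⟨m, hm, hi⟩
  have hLF : ∀ i ∈ L, ∃ m ∈ F, m.testBit i = true := by
    intro i hi
    rw [← hUL, hU, testBit_orAll] at hi
    exact hi
  -- edges of the mask and codes
  have hA1 : ∀ m ∈ F, ∀ x y, AA n m x y → ec x y ∈ L := fun m hm x y hxy =>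
    hFL m hm _ (tb_iff.1 hxy.2.2.2)
  have hA2 : ∀ m, ∀ e ∈ L, m.testBit e = true → AA n m (e / 64) (e % 64) := by
    intro m e he hme
    have h1 := hOK e he
    have h2 := hLn e he
    refine ⟨by omega, h2, by omega, ?_⟩
    rw [ec_digits hOK he, tb_iff]
    exact hme
  have hOKm : ∀ m, OKL (L.filter (tb m)) := fun m e he => hOK e (List.mem_filter.1 he).1
  have hnb : ∀ m ∈ F, ∀ x < n, ∀ y < n, y ∈ nbs x (L.filter (tb m)) ↔ AA n m x y := by
    intro m hm x hx y hy
    rw [mem_nbs (hOKm m) (by omega) (by omega), List.mem_filter]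
    constructor
    · rintro ⟨hxy, -, h⟩
      exact ⟨hx, hy, hxy, h⟩
    · intro h
      exact ⟨h.2.2.1, hA1 m hm x y h, h.2.2.2⟩
  have hnbL : ∀ x < n, ∀ y < n, y ∈ nbs x L ↔ ∃ m ∈ F, AA n m x y := by
    intro x hx y hy
    rw [mem_nbs hOK (by omega) (by omega)]
    constructor
    · rintro ⟨hxy, h⟩
      obtain ⟨m, hm, h'⟩ := hLF _ h
      exact ⟨m, hm, hx, hy, hxy, tb_iff.2 h'⟩
    · rintro ⟨m, hm, h⟩
      exact ⟨h.2.2.1, hA1 m hm x y h⟩
  -- elements of the list of neighbours are vertices
  have hnbn : ∀ l : List ℕ, (∀ e ∈ l, e ∈ L) → ∀ x, ∀ y ∈ nbs x l, y < n := by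
    intro l
    induction l with
    | nil => intro _ x y hy; simp [nbs] at hy
    | cons a l ih =>
      intro hl x y hy
      have ha := hl a List.mem_cons_self
      have h1 := hOK a ha
      have h3 := hLn a ha
      have ihl := ih (fun e he => hl e (List.mem_cons_of_mem _ he)) x
      rw [nbs] at hy
      cases hb : Nat.beq (a / 64) x with
      | true =>
        rw [hb, cond_true, List.mem_cons] at hy
        rcases hy with rfl | hy
        · exact h3
        · exact ihl y hy
      | false =>
        rw [hb, cond_false] at hy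
        cases hc : Nat.beq (a % 64) x with
        | true =>
          rw [hc, cond_true, List.mem_cons] at hy
          rcases hy with rfl | hy
          · omega
          · exact ihl y hy
        | false =>
          rw [hc, cond_false] at hy
          exact ihl y hy
  -- cycles
  have hcyc' : ∀ m ∈ F, ∃ s, s < n ∧ (∃ t, AA n m s t) ∧
      (∀ x y, AA n m x y → two (nbs x (L.filter (tb m))) = true) ∧
      ∀ x y, AA n m x y → Relation.ReflTransGen (AA n m) s x := by
    intro m hm
    rw [List.all_eq_true] at hcyc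
    have hc := hcyc m hm
    rw [forceL_eq] at hc
    cases hl : L.filter (tb m) with
    | nil => rw [hl] at hc; exact Bool.noConfusion hc
    | cons e l =>
      rw [hl, cycOK, Bool.and_eq_true, List.all_eq_true, force_eq, List.all_eq_true] at hc
      obtain ⟨hc1, hc2⟩ := hc
      have heL : ∀ e' ∈ e :: l, e' ∈ L ∧ m.testBit e' = true := by
        intro e' he'
        rw [← hl, List.mem_filter, tb_iff] at he'
        exact he'
      have he := heL e List.mem_cons_self
      have hAe := hA2 m e he.1 he.2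
      have hR : Reach (AA n m) (e / 64) (iter (growE (e :: l)) (l.length / 2 + 1) (1 <<< (e / 64))) := by
        refine reach_iter (fun R hR => reach_growE ?_ hR) reach_start
        intro e' he'
        have := hA2 m e' (heL e' he').1 (heL e' he').2
        exact ⟨this, this.symm⟩
      have hxy : ∀ x y, AA n m x y → ec x y ∈ e :: l := by
        intro x y h
        rw [← hl, List.mem_filter]
        exact ⟨hA1 m hm x y h, h.2.2.2⟩
      refine ⟨e / 64, hAe.1, ⟨_, hAe⟩, ?_, ?_⟩
      · intro x y h
        have h1 := hc1 _ (hxy x y h)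
        rw [Bool.and_eq_true] at h1
        rcases lt_or_gt_of_ne h.2.2.1 with h' | h'
        · rw [ec_of_lt h'] at h1
          have h3 : (64 * x + y) / 64 = x := by have := h.2.1; omega
          rw [h3] at h1
          exact h1.1
        · rw [ec_comm, ec_of_lt h'] at h1
          have h3 : (64 * y + x) % 64 = x := by have := h.1; omega
          rw [h3] at h1
          exact h1.2
      · intro x y h
        have h1 := hc2 _ (hxy x y h)
        rw [Bool.and_eq_true, tb_iff, tb_iff] at h1
        rcases lt_or_gt_of_ne h.2.2.1 with h' | h'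
        · rw [ec_of_lt h'] at h1
          have h3 : (64 * x + y) / 64 = x := by have := h.2.1; omega
          rw [h3] at h1
          exact hR x h1.1
        · rw [ec_comm, ec_of_lt h'] at h1
          have h3 : (64 * y + x) % 64 = x := by have := h.1; omega
          rw [h3] at h1
          exact hR x h1.2
  -- vertex figures
  have hfig' : ∀ x < n, ∃ s, (∃ m ∈ F, AA n m x s) ∧ ∀ y, (∃ m ∈ F, AA n m x y) →
      Relation.ReflTransGen (fun z z' => ∃ m ∈ {m : ℕ | m ∈ F}, AA n m x z ∧ AA n m x z') s y := by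
    intro x hx
    rw [List.all_eq_true] at hfig
    have hf := hfig x (List.mem_range.2 hx)
    rw [forceL_eq] at hf
    cases hl : nbs x L with
    | nil => rw [hl] at hf; exact Bool.noConfusion hf
    | cons w N =>
      rw [hl, figOK, forceL_eq, force_eq, List.all_eq_true] at hf
      have hwN : ∀ y ∈ w :: N, y < n ∧ ∃ m ∈ F, AA n m x y := by
        intro y hy
        have hyn : y < n := hnbn L (fun e he => he) x y (by rw [hl]; exact hy)
        exact ⟨hyn, (hnbL x hx y hyn).1 (by rw [hl]; exact hy)⟩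
      have hR : Reach (fun z z' => ∃ m ∈ {m : ℕ | m ∈ F}, AA n m x z ∧ AA n m x z') w
          (iter (growE (figs x (w :: N) F)) (N.length + 1) (1 <<< w)) := by
        refine reach_iter (fun R hR => reach_growE ?_ hR) reach_start
        -- the pairs
        have hp : ∀ G : List ℕ, (∀ m ∈ G, m ∈ F) → ∀ e ∈ figs x (w :: N) G,
            ∃ m ∈ F, AA n m x (e / 64) ∧ AA n m x (e % 64) := by
          intro G
          induction G with
          | nil => intro _ e he; simp [figs] at he
          | cons m G ih =>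
            intro hG e he
            have ihG := ih (fun m hm => hG m (List.mem_cons_of_mem _ hm))
            rw [figs] at he
            have hmF := hG m List.mem_cons_self
            split at he
            · rename_i a b hab
              rw [List.mem_cons] at he
              rcases he with rfl | he
              · have ha : a ∈ (w :: N).filter (fun w => tb m (ec x w)) := by rw [hab]; simp
                have hb : b ∈ (w :: N).filter (fun w => tb m (ec x w)) := by rw [hab]; simp
                rw [List.mem_filter] at ha hb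
                have ha' := hwN a ha.1
                have hb' := hwN b hb.1
                obtain ⟨_, _, ha2⟩ := ha'.2
                obtain ⟨_, _, hb2⟩ := hb'.2
                have e1 : (64 * a + b) / 64 = a := by omega
                have e2 : (64 * a + b) % 64 = b := by omega
                rw [e1, e2]
                exact ⟨m, hmF, ⟨hx, ha'.1, ha2.2.2.1, ha.2⟩, ⟨hx, hb'.1, hb2.2.2.1, hb.2⟩⟩
              · exact ihG e he
            · exact ihG e he
        intro e he
        obtain ⟨m, hm, h1, h2⟩ := hp F (fun m hm => hm) e he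
        exact ⟨⟨m, hm, h1, h2⟩, ⟨m, hm, h2, h1⟩⟩
      refine ⟨w, (hwN w List.mem_cons_self).2, ?_⟩
      intro y hy
      have hyn : y < n := by obtain ⟨_, _, h⟩ := hy; exact h.2.1
      have hy' : y ∈ w :: N := by rw [← hl]; exact (hnbL x hx y hyn).2 hy
      exact hR y (tb_iff.1 (hf y hy'))
  refine
    { nonempty := ⟨0, by show 0 < n; omega⟩
      symm := fun m x y h => h.symm
      ne := fun m _ x y h => h.2.2.1
      mem := fun m _ x y h => h.1
      vertex := ?_, face := ?_, two_faces := ?_, two_edges := ?_, face_conn := ?_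
      fig_conn := ?_, conn := ?_, inj := ?_ }
  · intro x hx
    obtain ⟨s, ⟨m, hm, h⟩, -⟩ := hfig' x hx
    exact ⟨m, hm, s, h⟩
  · intro m hm
    obtain ⟨s, -, ⟨t, h⟩, -⟩ := hcyc' m hm
    exact ⟨s, t, h⟩
  · intro m hm x y hxy
    rw [List.all_eq_true] at h2
    obtain ⟨m1, m2, hne, hl⟩ := two_iff (h2 _ (hA1 m hm x y hxy))
    have h1 : m1 ∈ F.filter fun m => tb m (ec x y) := by rw [hl]; simp
    have h2' : m2 ∈ F.filter fun m => tb m (ec x y) := by rw [hl]; simp
    rw [List.mem_filter] at h1 h2'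
    refine ⟨m1, h1.1, m2, h2'.1, hne, ⟨hxy.1, hxy.2.1, hxy.2.2.1, h1.2⟩,
      ⟨hxy.1, hxy.2.1, hxy.2.2.1, h2'.2⟩, ?_⟩
    intro m' hm' h'
    have : m' ∈ F.filter fun m => tb m (ec x y) := List.mem_filter.2 ⟨hm', h'.2.2.2⟩
    rw [hl] at this
    simpa using this
  · intro m hm x y hxy
    obtain ⟨s, -, -, htwo, -⟩ := hcyc' m hm
    obtain ⟨y1, y2, hne, hl⟩ := two_iff (htwo x y hxy)
    have hlt : ∀ z ∈ nbs x (L.filter (tb m)), z < n :=
      hnbn (L.filter (tb m)) (fun e he => (List.mem_filter.1 he).1) x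
    have h1 : y1 ∈ nbs x (L.filter (tb m)) := by rw [hl]; simp
    have h2' : y2 ∈ nbs x (L.filter (tb m)) := by rw [hl]; simp
    refine ⟨y1, y2, hne, (hnb m hm x hxy.1 y1 (hlt _ h1)).1 h1,
      (hnb m hm x hxy.1 y2 (hlt _ h2')).1 h2', ?_⟩
    intro y' hy'
    have := (hnb m hm x hxy.1 y' hy'.2.1).2 hy'
    rw [hl] at this
    simpa using this
  · intro m hm x y x' y' h h'
    obtain ⟨s, -, -, -, hr⟩ := hcyc' m hm
    exact (rtg_symm (fun a b hab => hab.symm) (hr x y h)).trans (hr x' y' h')
  · intro x hx y y' h h'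
    obtain ⟨s, -, hr⟩ := hfig' x hx
    exact (rtg_symm (fun a b ⟨m, hm, h1, h2⟩ => ⟨m, hm, h2, h1⟩) (hr y h)).trans (hr y' h')
  · have hR : Reach (fun z z' => ∃ m ∈ {m : ℕ | m ∈ F}, AA n m z z') 0 (iter (growE L) 16 1) := by
      refine reach_iter (fun R hR => reach_growE ?_ hR) ?_
      · intro e he
        obtain ⟨m, hm, hb⟩ := hLF e he
        have := hA2 m e he hb
        exact ⟨⟨m, hm, this⟩, ⟨m, hm, this.symm⟩⟩
      · exact reach_start (s := 0)
    rw [force_eq, List.all_eq_true] at hcon
    intro x hx y hy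
    have hx' := hR x (tb_iff.1 (hcon x (List.mem_range.2 hx)))
    have hy' := hR y (tb_iff.1 (hcon y (List.mem_range.2 hy)))
    exact (rtg_symm (fun a b ⟨m, hm, h1⟩ => ⟨m, hm, h1.symm⟩) hx').trans hy'
  · intro m hm m' hm' hall
    apply Nat.eq_of_testBit_eq
    intro i
    rw [Bool.eq_iff_iff]
    constructor
    · intro hi
      have hiL := hFL m hm i hi
      have := (hall _ _).1 (hA2 m i hiL hi)
      rw [← tb_iff, ← ec_digits hOK hiL]
      exact this.2.2.2
    · intro hi
      have hiL := hFL m' hm' i hi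
      have := (hall _ _).2 (hA2 m' i hiL hi)
      rw [← tb_iff, ← ec_digits hOK hiL]
      exact this.2.2.2

theorem ne_of_checkL {n : ℕ} {F : List ℕ} {U : ℕ} {L : List ℕ}
    (hU : U = orAll F) (hLd : L = (codes n).filter (tb U)) (h : checkL n F U L = true)
    {m : ℕ} (hm : m ∈ F) {i j : ℕ} (hi : i < n) (hn : n ≤ 64) (hij : tb m (ec i j) = true) :
    i ≠ j := by
  rintro rfl
  unfold checkL at h
  rw [Bool.and_eq_true, beq_iff] at h
  have h1 : ec i i ∈ L := by
    rw [← testBit_maskL, h.1, hU, testBit_orAll]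
    exact ⟨m, hm, tb_iff.1 hij⟩
  rw [hLd, List.mem_filter, mem_codes] at h1
  obtain ⟨⟨a, b, hab, hb, he⟩, -⟩ := h1
  unfold ec at he
  rw [Nat.ble_eq_true_of_le le_rfl, cond_true] at he
  omega

theorem rtg_lift {Z W : Type*} {r : Z → Z → Prop} {p : W → W → Prop} (f : Z → W)
    (h : ∀ a b, r a b → p (f a) (f b)) {a b : Z} (hab : Relation.ReflTransGen r a b) :
    Relation.ReflTransGen p (f a) (f b) := by
  induction hab with
  | refl => exact Relation.ReflTransGen.refl
  | tail _ h2 ih => exact ih.tail (h _ _ h2)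

/-- transport of the conditions -/
theorem Good.transport {X K : Type*} {V : Set ℕ} {S : Set K} {A : K → ℕ → ℕ → Prop} {pt : ℕ → X}
    (h : Good V S A) (hinj : ∀ i ∈ V, ∀ j ∈ V, pt i = pt j → i = j)
    (hA : ∀ m x y, A m x y → x ∈ V) :
    Good (pt '' V) S (fun m x y => ∃ i j, A m i j ∧ x = pt i ∧ y = pt j) where
  nonempty := h.nonempty.image pt
  symm := by
    rintro m x y ⟨i, j, hij, rfl, rfl⟩
    exact ⟨j, i, h.symm m i j hij, rfl, rfl⟩
  ne := by
    rintro m hm x y ⟨i, j, hij, rfl, rfl⟩ he
    exact h.ne m hm i j hij (hinj i (hA m i j hij) j (hA m j i (h.symm m i j hij)) he)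
  mem := by
    rintro m hm x y ⟨i, j, hij, rfl, rfl⟩
    exact ⟨i, hA m i j hij, rfl⟩
  vertex := by
    rintro _ ⟨i, hi, rfl⟩
    obtain ⟨m, hm, j, hj⟩ := h.vertex i hi
    exact ⟨m, hm, pt j, i, j, hj, rfl, rfl⟩
  face := by
    intro m hm
    obtain ⟨i, j, hij⟩ := h.face m hm
    exact ⟨pt i, pt j, i, j, hij, rfl, rfl⟩
  two_faces := by
    rintro m hm x y ⟨i, j, hij, rfl, rfl⟩
    obtain ⟨m1, h1, m2, h2, hne, ha, hb, hall⟩ := h.two_faces m hm i j hij
    refine ⟨m1, h1, m2, h2, hne, ⟨i, j, ha, rfl, rfl⟩, ⟨i, j, hb, rfl, rfl⟩, ?_⟩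
    rintro m' hm' ⟨i', j', hij', hi, hj⟩
    have e1 := hinj i (hA m i j hij) i' (hA m' i' j' hij') hi
    have e2 := hinj j (hA m j i (h.symm m i j hij)) j' (hA m' j' i' (h.symm m' i' j' hij')) hj
    subst e1 e2
    exact hall m' hm' hij'
  two_edges := by
    rintro m hm x y ⟨i, j, hij, rfl, rfl⟩
    obtain ⟨j1, j2, hne, h1, h2, hall⟩ := h.two_edges m hm i j hij
    refine ⟨pt j1, pt j2, fun he => hne (hinj j1 (hA m _ _ (h.symm m _ _ h1)) j2
      (hA m _ _ (h.symm m _ _ h2)) he), ⟨i, j1, h1, rfl, rfl⟩, ⟨i, j2, h2, rfl, rfl⟩, ?_⟩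
    rintro y' ⟨i', j', hij', hi, rfl⟩
    have e1 := hinj i (hA m i j hij) i' (hA m i' j' hij') hi
    subst e1
    rcases hall j' hij' with rfl | rfl
    · exact Or.inl rfl
    · exact Or.inr rfl
  face_conn := by
    rintro m hm x y x' y' ⟨i, j, hij, rfl, rfl⟩ ⟨i', j', hij', rfl, rfl⟩
    exact rtg_lift pt (fun a b hab => ⟨a, b, hab, rfl, rfl⟩)
      (h.face_conn m hm i j i' j' hij hij')
  fig_conn := by
    rintro _ ⟨i, hi, rfl⟩ y y' ⟨m, hm, i1, j1, hij1, hi1, rfl⟩ ⟨m', hm', i2, j2, hij2, hi2, rfl⟩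
    have e1 := hinj i hi i1 (hA m i1 j1 hij1) hi1
    have e2 := hinj i hi i2 (hA m' i2 j2 hij2) hi2
    subst e1 e2
    refine rtg_lift pt ?_ (h.fig_conn i hi j1 j2 ⟨m, hm, hij1⟩ ⟨m', hm', hij2⟩)
    rintro a b ⟨m3, hm3, ha, hb⟩
    exact ⟨m3, hm3, ⟨i, a, ha, rfl, rfl⟩, ⟨i, b, hb, rfl, rfl⟩⟩
  conn := by
    rintro _ ⟨i, hi, rfl⟩ _ ⟨j, hj, rfl⟩
    refine rtg_lift pt ?_ (h.conn i hi j hj)
    rintro a b ⟨m, hm, hab⟩
    exact ⟨m, hm, a, b, hab, rfl, rfl⟩
  inj := by
    intro m hm m' hm' hall
    refine h.inj m hm m' hm' fun i j => ?_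
    constructor
    · intro hij
      obtain ⟨i', j', hij', hi, hj⟩ := (hall (pt i) (pt j)).1 ⟨i, j, hij, rfl, rfl⟩
      have e1 := hinj i (hA m i j hij) i' (hA m' i' j' hij') hi
      have e2 := hinj j (hA m j i (h.symm m i j hij)) j' (hA m' j' i' (h.symm m' i' j' hij')) hj
      subst e1 e2
      exact hij'
    · intro hij
      obtain ⟨i', j', hij', hi, hj⟩ := (hall (pt i) (pt j)).2 ⟨i, j, hij, rfl, rfl⟩
      have e1 := hinj i (hA m' i j hij) i' (hA m i' j' hij') hi
      have e2 := hinj j (hA m' j i (h.symm m' i j hij)) j' (hA m j' i' (h.symm m i' j' hij')) hj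
      subst e1 e2
      exact hij'

theorem checkPoly_sound {X : Type*} {n : ℕ} {pt : ℕ → X} {r : List ℕ} (hn : n ≤ 64)
    (hinj : ∀ i < n, ∀ j < n, pt i = pt j → i = j) (h : checkPoly n r = true) :
    (cfgOf n pt r).IsPolyhedron := by
  unfold checkPoly at h
  rw [Bool.and_eq_true, forceL_eq, force_eq, forceL_eq] at h
  obtain ⟨h1, h⟩ := h
  have hn1 := Nat.le_of_ble_eq_true h1
  have hg := good_of_checkL hn hn1 rfl rfl h
  have hg' := Good.transport (pt := pt) hg hinj (fun m x y hxy => hxy.1)
  have hdec : ∀ m ∈ dd r, dec n pt m = decA (fun x y => ∃ i j, AA n m i j ∧ x = pt i ∧ y = pt j) := by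
    intro m hm
    ext e
    constructor
    · rintro ⟨i, hi, j, hj, hb, rfl⟩
      exact ⟨pt i, pt j, ⟨i, j, ⟨hi, hj, ne_of_checkL rfl rfl h hm hi hn hb, hb⟩, rfl, rfl⟩, rfl⟩
    · rintro ⟨x, y, ⟨i, j, hij, rfl, rfl⟩, rfl⟩
      exact ⟨i, hij.1, j, hij.2.1, hij.2.2.2, rfl⟩
  have hcfg : cfgOf n pt r = cfgA (pt '' {i : ℕ | i < n}) {m : ℕ | m ∈ dd r}
      (fun m x y => ∃ i j, AA n m i j ∧ x = pt i ∧ y = pt j) := by
    unfold cfgOf cfgA
    congr 1
    · ext x
      constructor
      · rintro ⟨i, hi, rfl⟩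
        exact ⟨i, hi, rfl⟩
      · rintro ⟨i, hi, rfl⟩
        exact ⟨i, hi, rfl⟩
    · ext e
      constructor
      · rintro ⟨m, hm, he⟩
        have hm' := mem_dd.2 hm
        exact ⟨m, hm', by rw [← hdec m hm']; exact he⟩
      · rintro ⟨m, hm, he⟩
        exact ⟨m, mem_dd.1 hm, by rw [hdec m hm]; exact he⟩
    · ext f
      constructor
      · rintro ⟨m, hm, rfl⟩
        have hm' := mem_dd.2 hm
        exact ⟨m, hm', hdec m hm'⟩
      · rintro ⟨m, hm, rfl⟩
        exact ⟨m, mem_dd.1 hm, (hdec m hm).symm⟩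
  rw [hcfg]
  exact hg'.isPolyhedron

end Pool.Agent.H38.FT.Code
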