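import Pool.Agent.H38.FT.Dec

/-!
A kernel-evaluable test that face masks describe an abstract polyhedron.
-/

namespace Pool.Agent.H38.FT.Code

/-- evaluates the list first -/
def forceL {α : Type} : List ℕ → (List ℕ → α) → α
  | [], f => f []
  | a :: l, f => force a fun a' => forceL l fun l' => f (a' :: l')

theorem forceL_eq {α : Type} (l : List ℕ) (f : List ℕ → α) : forceL l f = f l := by
  induction l generalizing f with
  | nil => rfl
  | cons a l ih => rw [forceL, force_eq, ih]

/-- codes of the pairs `i < j < n` -/
def codes (n : ℕ) : List ℕ :=
  (List.range n).flatMap fun j => (List.range j).map fun i => 64 * i + j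

/-- union of masks -/
def orAll : List ℕ → ℕ
  | [] => 0
  | m :: l => m ||| orAll l

/-- the mask with the bits in the list -/
def maskL : List ℕ → ℕ
  | [] => 0
  | e :: l => (1 <<< e) ||| maskL l

/-- removes repetitions -/
def dd : List ℕ → List ℕ
  | [] => []
  | m :: l => cond (mem m l) (dd l) (m :: dd l)

/-- neighbours of `v` along the edges of the list -/
def nbs (v : ℕ) : List ℕ → List ℕ
  | [] => []
  | e :: l => cond (Nat.beq (e / 64) v) ((e % 64) :: nbs v l)
      (cond (Nat.beq (e % 64) v) ((e / 64) :: nbs v l) (nbs v l))

/-- the list is formed of two different numbers -/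
def two : List ℕ → Bool
  | [a, b] => !(Nat.beq a b)
  | _ => false

/-- one round of growing along the edges of the list -/
def growE : List ℕ → ℕ → ℕ
  | [], R => R
  | e :: l, R => force (add2 R (e / 64) (e % 64)) (growE l)

/-- the edges of the list form a cycle -/
def cycOK : List ℕ → Bool
  | [] => false
  | e :: l => (e :: l).all (fun e' => two (nbs (e' / 64) (e :: l)) && two (nbs (e' % 64) (e :: l))) &&
      force (iter (growE (e :: l)) (l.length / 2 + 1) (1 <<< (e / 64))) fun R =>
        (e :: l).all fun e' => tb R (e' / 64) && tb R (e' % 64)

/-- the pairs of neighbours of `v` that are consecutive in a face -/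
def figs (v : ℕ) (N : List ℕ) : List ℕ → List ℕ
  | [] => []
  | m :: F => match N.filter (fun w => tb m (ec v w)) with
    | [a, b] => (64 * a + b) :: figs v N F
    | _ => figs v N F

/-- the vertex figure at `v` is connected, `N` being the list of the neighbours of `v` -/
def figOK (v : ℕ) (F : List ℕ) : List ℕ → Bool
  | [] => false
  | w :: N => forceL (figs v (w :: N) F) fun PV =>
      force (iter (growE PV) (N.length + 1) (1 <<< w)) fun R => (w :: N).all fun x => tb R x

/-- the test, `L` being the list of edges -/
def checkL (n : ℕ) (F : List ℕ) (U : ℕ) (L : List ℕ) : Bool :=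
  Nat.beq (maskL L) U && (L.all (fun e => two (F.filter fun m => tb m e)) &&
    (F.all (fun m => forceL (L.filter (tb m)) cycOK) &&
    ((List.range n).all (fun v => forceL (nbs v L) (figOK v F)) &&
    (force (iter (growE L) 16 1) fun R => (List.range n).all fun i => tb R i))))

/-- the masks in `r` describe an abstract polyhedron with vertices `0, ..., n - 1` -/
def checkPoly (n : ℕ) (r : List ℕ) : Bool :=
  Nat.ble 1 n && forceL (dd r) fun F => force (orAll F) fun U =>
    forceL ((codes n).filter (tb U)) (checkL n F U)

end Pool.Agent.H38.FT.Code
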