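import Pool.Agent.H38.FT.Defs

/-!
# Strong flag-connectedness from local cycles

A configuration whose diamond conditions hold is strongly flag-connected as soon as the flags at
each vertex are connected, the flags in each 2-face are connected, and the edge graph is connected.
-/

namespace Pool.Agent.H59.FT

open Pool.Agent.H38.FT

variable {X Y : Type*}

/-- One adjacency step between flags of `P`. -/
def FStep (P : Cfg X) (A B : Triple X) : Prop := P.IsFlag A ∧ P.IsFlag B ∧ Adjacent A B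

/-- Two vertices joined by an edge of `P`. -/
def EStep (P : Cfg X) (x y : X) : Prop := s(x, y) ∈ P.E

/-- The flags at the vertex `x` are connected through flags at `x`. -/
def VertexConn (P : Cfg X) (x : X) : Prop :=
  ∀ A B, P.IsFlag A → P.IsFlag B → A.1 = x → B.1 = x →
    Relation.ReflTransGen (fun C D => P.IsFlag C ∧ P.IsFlag D ∧ Adjacent C D ∧ D.1 = x) A B

/-- The flags in the 2-face `f` are connected through flags in `f`. -/
def FaceConn (P : Cfg X) (f : Set (Sym2 X)) : Prop :=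
  ∀ A B, P.IsFlag A → P.IsFlag B → A.2.2 = f → B.2.2 = f →
    Relation.ReflTransGen (fun C D => P.IsFlag C ∧ P.IsFlag D ∧ Adjacent C D ∧ D.2.2 = f) A B

theorem rtg_mono {Z : Type*} {r p : Z → Z → Prop} (h : ∀ a b, r a b → p a b) {a b : Z}
    (hab : Relation.ReflTransGen r a b) : Relation.ReflTransGen p a b := by
  induction hab with
  | refl => exact Relation.ReflTransGen.refl
  | tail _ h2 ih => exact ih.tail (h _ _ h2)

theorem isPolyhedron_of_conn {P : Cfg X} (nonempty : P.V.Nonempty)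
    (edge : ∀ e ∈ P.E, ∃ x ∈ P.V, ∃ y ∈ P.V, x ≠ y ∧ e = s(x, y))
    (face : ∀ f ∈ P.F, f.Nonempty ∧ f ⊆ P.E)
    (vertex : ∀ x ∈ P.V, ∃ e ∈ P.E, x ∈ e)
    (diamond_edge : ∀ e ∈ P.E, {f | f ∈ P.F ∧ e ∈ f}.ncard = 2)
    (diamond_face : ∀ f ∈ P.F, ∀ x, (∃ e ∈ f, x ∈ e) → {e | e ∈ f ∧ x ∈ e}.ncard = 2)
    (hv : ∀ x ∈ P.V, VertexConn P x) (hf : ∀ f ∈ P.F, FaceConn P f)
    (hg : ∀ x ∈ P.V, ∀ y ∈ P.V, Relation.ReflTransGen (EStep P) x y) : P.IsPolyhedron := by
  have hother : ∀ A, P.IsFlag A → ∀ y, A.2.1 = s(A.1, y) → P.IsFlag (y, A.2.1, A.2.2) := by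
    intro A hA y hy
    obtain ⟨a, ha, b, hb, -, hab⟩ := edge A.2.1 hA.2.1
    refine ⟨?_, hA.2.1, hA.2.2.1, ?_, hA.2.2.2.2⟩
    · have : y ∈ s(a, b) := by rw [← hab, hy]; simp
      rcases Sym2.mem_iff.1 this with h | h
      · exact h ▸ ha
      · exact h ▸ hb
    · show y ∈ A.2.1
      rw [hy]; simp
  -- global connectedness without side conditions
  have hglob : ∀ x y, Relation.ReflTransGen (EStep P) x y → x ∈ P.V → ∀ A, P.IsFlag A → A.1 = x →
      ∃ B, P.IsFlag B ∧ B.1 = y ∧ Relation.ReflTransGen (FStep P) A B := by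
    intro x y hxy hx A hA hAx
    induction hxy with
    | refl => exact ⟨A, hA, hAx, Relation.ReflTransGen.refl⟩
    | @tail b c hab hbc ih =>
      obtain ⟨B, hB, hBb, hAB⟩ := ih
      have he : s(b, c) ∈ P.E := hbc
      obtain ⟨u, hu, w, hw, huw, huv⟩ := edge _ he
      have hne : ({f | f ∈ P.F ∧ s(b, c) ∈ f}).Nonempty := by
        apply Set.nonempty_of_ncard_ne_zero
        rw [diamond_edge _ he]; norm_num
      obtain ⟨f, hf1, hf2⟩ := hne
      have hbV : b ∈ P.V := by rw [← hBb]; exact hB.1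
      have hC : P.IsFlag (b, s(b, c), f) := ⟨hbV, he, hf1, by simp, hf2⟩
      have hD : P.IsFlag (c, s(b, c), f) := hother _ hC c rfl
      have hbc' : b ≠ c := by
        rintro rfl
        rw [Sym2.eq_iff] at huv
        rcases huv with ⟨h1, h2⟩ | ⟨h1, h2⟩
        · exact huw (h1 ▸ h2 ▸ rfl)
        · exact huw (h1 ▸ h2 ▸ rfl)
      refine ⟨_, hD, rfl, (hAB.trans ?_).tail (⟨hC, hD, Or.inl ⟨hbc', rfl, rfl⟩⟩ : FStep P _ _)⟩
      exact rtg_mono (fun C D h => ⟨h.1, h.2.1, h.2.2.1⟩) (hv b hbV B _ hB hC hBb rfl)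
  refine ⟨nonempty, edge, face, vertex, diamond_edge, diamond_face, ?_⟩
  intro A B hA hB
  by_cases h1 : A.1 = B.1
  · by_cases h2 : A.2.1 = B.2.1
    · by_cases h3 : A.2.2 = B.2.2
      · have : A = B := Prod.ext h1 (Prod.ext h2 h3)
        rw [this]
      · exact Relation.ReflTransGen.single
          ⟨hA, hB, Or.inr (Or.inr ⟨h1, h2, h3⟩), fun _ => h1.symm, fun _ => h2.symm,
            fun h => absurd h h3⟩
    · by_cases h3 : A.2.2 = B.2.2
      · exact Relation.ReflTransGen.single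
          ⟨hA, hB, Or.inr (Or.inl ⟨h1, h2, h3⟩), fun _ => h1.symm, fun h => absurd h h2,
            fun _ => h3.symm⟩
      · refine rtg_mono ?_ (hv A.1 hA.1 A B hA hB rfl h1.symm)
        exact fun C D h => ⟨h.1, h.2.1, h.2.2.1, fun _ => h.2.2.2, fun h => absurd h h2,
          fun h => absurd h h3⟩
  · by_cases h2 : A.2.1 = B.2.1
    · have hmem : A.2.1 = s(A.1, B.1) := by
        have hb : B.1 ∈ A.2.1 := by rw [h2]; exact hB.2.2.2.1
        exact (Sym2.mem_and_mem_iff h1).1 ⟨hA.2.2.2.1, hb⟩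
      by_cases h3 : A.2.2 = B.2.2
      · exact Relation.ReflTransGen.single
          ⟨hA, hB, Or.inl ⟨h1, h2, h3⟩, fun h => absurd h h1, fun _ => h2.symm,
            fun _ => h3.symm⟩
      · have hC : P.IsFlag (B.1, A.2.1, A.2.2) := hother A hA B.1 hmem
        have s1 : Relation.ReflTransGen
            (fun C D => P.IsFlag C ∧ P.IsFlag D ∧ Adjacent C D ∧ HasCommon A B D) A
            (B.1, A.2.1, A.2.2) := Relation.ReflTransGen.single
              ⟨hA, hC, Or.inl ⟨h1, rfl, rfl⟩, fun h => absurd h h1, fun _ => rfl,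
                fun h => absurd h h3⟩
        exact s1.tail ⟨hC, hB, Or.inr (Or.inr ⟨rfl, h2, h3⟩), fun h => absurd h h1,
          fun _ => h2.symm, fun h => absurd h h3⟩
    · by_cases h3 : A.2.2 = B.2.2
      · refine rtg_mono ?_ (hf A.2.2 hA.2.2.1 A B hA hB rfl h3.symm)
        exact fun C D h => ⟨h.1, h.2.1, h.2.2.1, fun h => absurd h h1, fun h => absurd h h2,
          fun _ => h.2.2.2⟩
      · obtain ⟨C, hC, hCB, hAC⟩ := hglob A.1 B.1 (hg A.1 hA.1 B.1 hB.1) hA.1 A hA rfl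
        have h4 := hv B.1 hB.1 C B hC hB hCB rfl
        have h5 : Relation.ReflTransGen (FStep P) C B :=
          rtg_mono (fun C D h => ⟨h.1, h.2.1, h.2.2.1⟩) h4
        refine rtg_mono (p := fun C D =>
          P.IsFlag C ∧ P.IsFlag D ∧ Adjacent C D ∧ HasCommon A B D) ?_ (hAC.trans h5)
        exact fun C D h => ⟨h.1, h.2.1, h.2.2, fun h => absurd h h1, fun h => absurd h h2,
          fun h => absurd h h3⟩

end Pool.Agent.H59.FT
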