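import Pool.Agent.H59.FT.Conn

/-!
Images of configurations under injective maps.
-/

namespace Pool.Agent.H59.FT

open Pool.Agent.H38.FT

variable {X Y Z : Type*}

theorem map_map (P : Cfg X) (s : X → Y) (t : Y → Z) :
    (P.map s).map t = P.map (fun x => t (s x)) := by
  unfold Cfg.map
  congr 1
  · rw [Set.image_image]
  · rw [Set.image_image]
    congr 1
    ext e
    rw [Sym2.map_map]
    rfl
  · rw [Set.image_image]
    congr 1
    ext f e
    rw [Set.image_image]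
    constructor
    · rintro ⟨a, ha, rfl⟩
      exact ⟨a, ha, (Sym2.map_map (g := t) (f := s) a).symm⟩
    · rintro ⟨a, ha, rfl⟩
      exact ⟨a, ha, Sym2.map_map (g := t) (f := s) a⟩

theorem map_id (P : Cfg X) : P.map (fun x => x) = P := by
  rcases P with ⟨V, E, F⟩
  unfold Cfg.map
  have h1 : Sym2.map (fun x : X => x) = fun e => e := Sym2.map_id'
  congr 1
  · exact Set.image_id' V
  · rw [h1]; exact Set.image_id' E
  · rw [h1]
    have : (fun f : Set (Sym2 X) => (fun e => e) '' f) = fun f => f := by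
      funext f
      exact Set.image_id' f
    rw [this]
    exact Set.image_id' F

/-- the image of a triple -/
def mapT (s : X → Y) (A : Triple X) : Triple Y := (s A.1, Sym2.map s A.2.1, Sym2.map s '' A.2.2)

theorem mem_map_iff {s : X → Y} (hs : Function.Injective s) {x : X} {e : Sym2 X} :
    s x ∈ Sym2.map s e ↔ x ∈ e := by
  rw [Sym2.mem_map]
  constructor
  · rintro ⟨a, ha, h⟩
    exact hs h ▸ ha
  · intro h
    exact ⟨x, h, rfl⟩

theorem isPolyhedron_map {P : Cfg X} (h : P.IsPolyhedron) {s : X → Y}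
    (hs : Function.Injective s) : (P.map s).IsPolyhedron := by
  have hs2 : Function.Injective (Sym2.map s) := Sym2.map.injective hs
  have hs3 : Function.Injective (fun f : Set (Sym2 X) => Sym2.map s '' f) :=
    Set.image_injective.2 hs2
  have hfl : ∀ B, (P.map s).IsFlag B ↔ ∃ A, P.IsFlag A ∧ B = mapT s A := by
    rintro ⟨y, e, f⟩
    constructor
    · rintro ⟨⟨x, hx, hxy⟩, ⟨e0, he0, he⟩, ⟨f0, hf0, hf⟩, hye, hef⟩
      simp only at hxy he hf hye hef
      subst hxy he hf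
      refine ⟨(x, e0, f0), ⟨hx, he0, hf0, (mem_map_iff hs).1 hye, ?_⟩, rfl⟩
      obtain ⟨e1, he1, h1⟩ := hef
      exact hs2 h1 ▸ he1
    · rintro ⟨⟨x, e0, f0⟩, ⟨h1, h2, h3, h4, h5⟩, hB⟩
      rw [hB]
      exact ⟨⟨x, h1, rfl⟩, ⟨e0, h2, rfl⟩, ⟨f0, h3, rfl⟩, (mem_map_iff hs).2 h4, ⟨e0, h5, rfl⟩⟩
  refine ⟨h.nonempty.image s, ?_, ?_, ?_, ?_, ?_, ?_⟩
  · rintro e ⟨e0, he0, rfl⟩
    obtain ⟨x, hx, y, hy, hxy, rfl⟩ := h.edge e0 he0
    exact ⟨s x, ⟨x, hx, rfl⟩, s y, ⟨y, hy, rfl⟩, fun he => hxy (hs he), rfl⟩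
  · rintro f ⟨f0, hf0, rfl⟩
    exact ⟨(h.face f0 hf0).1.image _, Set.image_mono (h.face f0 hf0).2⟩
  · rintro x ⟨x0, hx0, rfl⟩
    obtain ⟨e, he, hxe⟩ := h.vertex x0 hx0
    exact ⟨Sym2.map s e, ⟨e, he, rfl⟩, (mem_map_iff hs).2 hxe⟩
  · rintro e ⟨e0, he0, rfl⟩
    rw [← h.diamond_edge e0 he0]
    have : {f | f ∈ (P.map s).F ∧ Sym2.map s e0 ∈ f} =
        (fun f : Set (Sym2 X) => Sym2.map s '' f) '' {f | f ∈ P.F ∧ e0 ∈ f} := by
      ext f
      constructor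
      · rintro ⟨⟨f0, hf0, rfl⟩, e1, he1, h1⟩
        exact ⟨f0, ⟨hf0, hs2 h1 ▸ he1⟩, rfl⟩
      · rintro ⟨f0, ⟨hf0, he⟩, rfl⟩
        exact ⟨⟨f0, hf0, rfl⟩, e0, he, rfl⟩
    rw [this, Set.ncard_image_of_injective _ hs3]
  · rintro f ⟨f0, hf0, rfl⟩ x ⟨e, ⟨e0, he0, rfl⟩, hxe⟩
    obtain ⟨x0, hx0, rfl⟩ := Sym2.mem_map.1 hxe
    rw [← h.diamond_face f0 hf0 x0 ⟨e0, he0, hx0⟩]
    have : {e | e ∈ Sym2.map s '' f0 ∧ s x0 ∈ e} = Sym2.map s '' {e | e ∈ f0 ∧ x0 ∈ e} := by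
      ext e
      constructor
      · rintro ⟨⟨e1, he1, rfl⟩, hx⟩
        exact ⟨e1, ⟨he1, (mem_map_iff hs).1 hx⟩, rfl⟩
      · rintro ⟨e1, ⟨he1, hx⟩, rfl⟩
        exact ⟨⟨e1, he1, rfl⟩, (mem_map_iff hs).2 hx⟩
    exact (congrArg Set.ncard this).trans (Set.ncard_image_of_injective _ hs2)
  · intro A' B' hA' hB'
    obtain ⟨A, hA, rfl⟩ := (hfl A').1 hA'
    obtain ⟨B, hB, rfl⟩ := (hfl B').1 hB'
    have key : ∀ C, Relation.ReflTransGen
        (fun C D => P.IsFlag C ∧ P.IsFlag D ∧ Adjacent C D ∧ HasCommon A B D) A C →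
        Relation.ReflTransGen (fun C D => (P.map s).IsFlag C ∧ (P.map s).IsFlag D ∧
          Adjacent C D ∧ HasCommon (mapT s A) (mapT s B) D) (mapT s A) (mapT s C) := by
      intro C hC
      induction hC with
      | refl => exact Relation.ReflTransGen.refl
      | @tail C D _ hCD ih =>
        obtain ⟨h1, h2, h3, h4, h5, h6⟩ := hCD
        refine ih.tail ⟨(hfl _).2 ⟨C, h1, rfl⟩, (hfl _).2 ⟨D, h2, rfl⟩, ?_, ?_, ?_, ?_⟩
        · rcases h3 with ⟨a, b, c⟩ | ⟨a, b, c⟩ | ⟨a, b, c⟩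
          · exact Or.inl ⟨fun h => a (hs h), congrArg (Sym2.map s) b,
              congrArg (fun f => Sym2.map s '' f) c⟩
          · exact Or.inr (Or.inl ⟨congrArg s a, fun h => b (hs2 h),
              congrArg (fun f => Sym2.map s '' f) c⟩)
          · exact Or.inr (Or.inr ⟨congrArg s a, congrArg (Sym2.map s) b, fun h => c (hs3 h)⟩)
        · intro h
          exact congrArg s (h4 (hs h))
        · intro h
          exact congrArg (Sym2.map s) (h5 (hs2 h))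
        · intro h
          exact congrArg (fun f => Sym2.map s '' f) (h6 (hs3 h))
    exact key B (h.connected A B hA hB)

end Pool.Agent.H59.FT
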